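import Pool.Agent.TH171.Bx.Sel

/-!
# Given lists cover all non-edges only with tiny probability
-/

open Finset
open scoped Classical

set_option linter.unusedSectionVars false

namespace TH171.Bx

noncomputable section

variable {n s m L : ℕ} [NeZero L]

/-- the pair `(a, b)` is covered by the lists `T` or `S` -/
def Cov (T S : Fin m → Fin s → Fin n) (ω : Fin n × Fin n → Fin L) (a b : Fin n) : Prop :=
  (∃ p : Fin m × Fin s, T p.1 p.2 = a ∧ ∀ i, i < p.2 → ¬ ed ω (T p.1 i, b)) ∨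
  (∃ p : Fin m × Fin s, S p.1 p.2 = b ∧ ∀ i, i < p.2 → ¬ ed ω (a, S p.1 i))

/-- the hitting sets -/
def CC (T S : Fin m → Fin s → Fin n) (a b : Fin n) :
    (Fin m × Fin s) ⊕ (Fin m × Fin s) → Finset (Fin n × Fin n)
  | Sum.inl p => (pre T p).image (fun y => (y, b))
  | Sum.inr p => (pre S p).image (fun y => (a, y))

/-- the index set of the hitting sets -/
def JJ (T S : Fin m → Fin s → Fin n) (a b : Fin n) :
    Finset ((Fin m × Fin s) ⊕ (Fin m × Fin s)) := (pos T a).disjSum (pos S b)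

/-- all the initial segments are hit, and `(a, b)` is a non-edge -/
def UU (T S : Fin m → Fin s → Fin n) (a b : Fin n) (ω : Fin n × Fin n → Fin L) : Prop :=
  ¬ ed ω (a, b) ∧ ∀ j ∈ JJ T S a b, ∃ x ∈ CC T S a b j, ed ω x

/-- the coordinates that matter -/
def EE (T S : Fin m → Fin s → Fin n) (a b : Fin n) : Set (Fin n × Fin n) :=
  {x | (x.1 ∈ ZZ T a ∧ x.2 = b) ∨ (x.1 = a ∧ x.2 ∈ ZZ S b)}

variable (T S : Fin m → Fin s → Fin n)

lemma UU_not_cov {a b : Fin n} {ω : Fin n × Fin n → Fin L} (h : UU T S a b ω) :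
    ¬ Cov T S ω a b := by
  rintro (⟨p, hp, hc⟩ | ⟨p, hp, hc⟩)
  · obtain ⟨x, hx, hxe⟩ := h.2 (Sum.inl p) (by
      rw [JJ, Finset.inl_mem_disjSum]; exact (mem_pos T).mpr hp)
    simp only [CC, Finset.mem_image] at hx
    obtain ⟨y, hy, rfl⟩ := hx
    rw [mem_pre] at hy
    obtain ⟨i, hi, _, rfl⟩ := hy
    exact hc i hi hxe
  · obtain ⟨x, hx, hxe⟩ := h.2 (Sum.inr p) (by
      rw [JJ, Finset.inr_mem_disjSum]; exact (mem_pos S).mpr hp)
    simp only [CC, Finset.mem_image] at hx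
    obtain ⟨y, hy, rfl⟩ := hx
    rw [mem_pre] at hy
    obtain ⟨i, hi, _, rfl⟩ := hy
    exact hc i hi hxe

lemma self_mem_ZZ (x : Fin n) : x ∈ ZZ T x := Finset.mem_insert_self _ _

lemma pre_sub_ZZ {x : Fin n} {p : Fin m × Fin s} (hp : p ∈ pos T x) : pre T p ⊆ ZZ T x := by
  intro y hy
  unfold ZZ
  rw [Finset.mem_insert]
  right
  rw [Finset.mem_biUnion]
  exact ⟨p, hp, hy⟩

lemma CC_sub {a b : Fin n} {j : (Fin m × Fin s) ⊕ (Fin m × Fin s)} (hj : j ∈ JJ T S a b) :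
    ∀ x ∈ CC T S a b j, x ∈ EE T S a b := by
  intro x hx
  rcases j with p | p
  · rw [JJ, Finset.inl_mem_disjSum] at hj
    simp only [CC, Finset.mem_image] at hx
    obtain ⟨y, hy, rfl⟩ := hx
    exact Or.inl ⟨pre_sub_ZZ T hj hy, rfl⟩
  · rw [JJ, Finset.inr_mem_disjSum] at hj
    simp only [CC, Finset.mem_image] at hx
    obtain ⟨y, hy, rfl⟩ := hx
    exact Or.inr ⟨rfl, pre_sub_ZZ S hj hy⟩

lemma dep_UU (a b : Fin n) : Dep (UU (L := L) T S a b) (EE T S a b) := by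
  intro ω ω' hx h
  refine ⟨?_, ?_⟩
  · have h1 := hx (a, b) (Or.inl ⟨self_mem_ZZ T a, rfl⟩)
    have h2 := h.1
    unfold ed at *
    rwa [← h1]
  · intro j hj
    obtain ⟨x, hxC, hxe⟩ := h.2 j hj
    refine ⟨x, hxC, ?_⟩
    have h1 := hx x (CC_sub T S hj x hxC)
    unfold ed at *
    rwa [← h1]

lemma disj_EE {A B : Finset (Fin n)}
    (hA : ∀ x ∈ A, ∀ y ∈ A, x ≠ y → Disjoint (ZZ T x) (ZZ T y))
    (hB : ∀ x ∈ B, ∀ y ∈ B, x ≠ y → Disjoint (ZZ S x) (ZZ S y))
    {a b a' b' : Fin n} (ha : a ∈ A) (ha' : a' ∈ A) (hb : b ∈ B) (hb' : b' ∈ B)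
    (hne : (a, b) ≠ (a', b')) : Disjoint (EE T S a b) (EE T S a' b') := by
  rw [Set.disjoint_left]
  have kA : ∀ z, z ∈ ZZ T a → z ∈ ZZ T a' → a = a' := by
    intro z h1 h2
    by_contra h
    exact (Finset.disjoint_left.mp (hA a ha a' ha' h)) h1 h2
  have kB : ∀ z, z ∈ ZZ S b → z ∈ ZZ S b' → b = b' := by
    intro z h1 h2
    by_contra h
    exact (Finset.disjoint_left.mp (hB b hb b' hb' h)) h1 h2
  rintro ⟨x, y⟩ (⟨h1, h2⟩ | ⟨h1, h2⟩) (⟨h3, h4⟩ | ⟨h3, h4⟩)
  · simp only at h1 h2 h3 h4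
    apply hne
    rw [kA x h1 h3, ← h2, ← h4]
  · simp only at h1 h2 h3 h4
    subst h2 h3
    have e1 := kB y (self_mem_ZZ S y) h4
    have e2 := kA x h1 (self_mem_ZZ T x)
    exact hne (by rw [e1, e2])
  · simp only at h1 h2 h3 h4
    subst h1 h4
    have e1 := kB y h2 (self_mem_ZZ S y)
    have e2 := kA x (self_mem_ZZ T x) h3
    exact hne (by rw [e1, e2])
  · simp only at h1 h2 h3 h4
    apply hne
    rw [kB y h2 h4, ← h1, ← h3]

lemma prod_pre_ge {A : Finset (Fin n)}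
    (hs : ∀ x ∈ A, ∑ p ∈ pos T x, phi L (pre T p).card ≤ 3 * L)
    (hp : ∀ x ∈ A, ∀ p ∈ pos T x, 0 < (pre T p).card) {a : Fin n} (ha : a ∈ A) :
    Real.exp (-(3 * L)) ≤ ∏ p ∈ pos T a, (1 - (uu L) ^ (pre T p).card) := by
  have h1 : ∏ p ∈ pos T a, (1 - (uu L) ^ (pre T p).card)
      = Real.exp (- ∑ p ∈ pos T a, phi L (pre T p).card) := by
    rw [← Finset.sum_neg_distrib, Real.exp_sum]
    exact Finset.prod_congr rfl (fun p hp' => (exp_neg_phi (hp a ha p hp')).symm)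
  rw [h1]
  exact Real.exp_le_exp.mpr (neg_le_neg (hs a ha))

theorem pr_cov (hT : ∀ j, Function.Injective (T j)) (hS : ∀ j, Function.Injective (S j))
    {A B : Finset (Fin n)}
    (hA : ∀ x ∈ A, ∀ y ∈ A, x ≠ y → Disjoint (ZZ T x) (ZZ T y))
    (hA2 : ∀ x ∈ A, ∑ p ∈ pos T x, phi L (pre T p).card ≤ 3 * L)
    (hA3 : ∀ x ∈ A, ∀ p ∈ pos T x, 0 < (pre T p).card)
    (hB : ∀ x ∈ B, ∀ y ∈ B, x ≠ y → Disjoint (ZZ S x) (ZZ S y))
    (hB2 : ∀ x ∈ B, ∑ p ∈ pos S x, phi L (pre S p).card ≤ 3 * L)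
    (hB3 : ∀ x ∈ B, ∀ p ∈ pos S x, 0 < (pre S p).card) :
    pr (fun ω : Fin n × Fin n → Fin L => ∀ a b, ¬ ed ω (a, b) → Cov T S ω a b)
      ≤ (1 - uu L * (Real.exp (-(3 * L)) * Real.exp (-(3 * L)))) ^ (A.card * B.card) := by
  have h1 := pr_forall_not (A ×ˢ B) (fun x => UU (L := L) T S x.1 x.2) (fun x => EE T S x.1 x.2)
    (fun x _ => dep_UU T S x.1 x.2)
    (by
      rintro ⟨a, b⟩ hab ⟨a', b'⟩ hab' hne
      rw [Finset.mem_product] at hab hab'
      exact disj_EE T S hA hB hab.1 hab'.1 hab.2 hab'.2 hne)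
    (q := uu L * (Real.exp (-(3 * L)) * Real.exp (-(3 * L))))
    (by
      rintro ⟨a, b⟩ hab
      rw [Finset.mem_product] at hab
      have h0 : ∀ j ∈ JJ T S a b, (a, b) ∉ CC T S a b j := by
        intro j hj hm
        rcases j with p | p
        · rw [JJ, Finset.inl_mem_disjSum] at hj
          simp only [CC, Finset.mem_image, Prod.mk.injEq, and_true] at hm
          obtain ⟨y, hy, rfl⟩ := hm
          rw [mem_pre] at hy
          obtain ⟨i, hi, _, hi3⟩ := hy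
          rw [mem_pos] at hj
          have := hT p.1 (hi3.trans hj.symm)
          rw [this] at hi
          exact lt_irrefl _ hi
        · rw [JJ, Finset.inr_mem_disjSum] at hj
          simp only [CC, Finset.mem_image, Prod.mk.injEq, true_and] at hm
          obtain ⟨y, hy, rfl⟩ := hm
          rw [mem_pre] at hy
          obtain ⟨i, hi, _, hi3⟩ := hy
          rw [mem_pos] at hj
          have := hS p.1 (hi3.trans hj.symm)
          rw [this] at hi
          exact lt_irrefl _ hi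
      refine le_trans ?_ (pr_U (L := L) (JJ T S a b) (CC T S a b) (a, b) h0)
      refine mul_le_mul_of_nonneg_left ?_ uu_nonneg
      rw [JJ, Finset.prod_disjSum]
      have c1 : ∀ p, (CC T S a b (Sum.inl p)).card = (pre T p).card := by
        intro p
        simp only [CC]
        exact Finset.card_image_of_injective _ (fun y y' h => by simpa using h)
      have c2 : ∀ p, (CC T S a b (Sum.inr p)).card = (pre S p).card := by
        intro p
        simp only [CC]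
        exact Finset.card_image_of_injective _ (fun y y' h => by simpa using h)
      simp only [c1, c2]
      exact mul_le_mul (prod_pre_ge T hA2 hA3 hab.1) (prod_pre_ge S hB2 hB3 hab.2)
        (Real.exp_pos _).le ((Real.exp_pos _).le.trans (prod_pre_ge T hA2 hA3 hab.1)))
  rw [Finset.card_product] at h1
  refine le_trans (pr_mono ?_) h1
  rintro ω h ⟨a, b⟩ _ hU
  exact UU_not_cov T S hU (h a b hU.1)

end

end TH171.Bx
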