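import Pool.Agent.TH171.Bx.Cov

/-!
# Box representations give covering lists
-/

open Finset
open scoped Classical

set_option linter.unusedSectionVars false

namespace TH171.Bx

noncomputable section

/-- `G` is the intersection graph of a family of axis-parallel boxes in `ℝ ^ d`
(a box is a product of closed bounded nonempty intervals, that is `Set.Icc lo hi`). -/
def HasBoxRep {V : Type} (G : SimpleGraph V) (d : ℕ) : Prop :=
  ∃ lo hi : V → (Fin d → ℝ), (∀ v, lo v ≤ hi v) ∧
    ∀ u v, u ≠ v → (G.Adj u v ↔ (Set.Icc (lo u) (hi u) ∩ Set.Icc (lo v) (hi v)).Nonempty)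

variable {n s m L d : ℕ} [NeZero L]

/-- the random bipartite graph -/
def GG (ω : Fin n × Fin n → Fin L) : SimpleGraph (Fin n ⊕ Fin n) where
  Adj u v := (∃ a b, u = Sum.inl a ∧ v = Sum.inr b ∧ ed ω (a, b)) ∨
    (∃ a b, u = Sum.inr b ∧ v = Sum.inl a ∧ ed ω (a, b))
  symm := ⟨by
    rintro u v (⟨a, b, h1, h2, h3⟩ | ⟨a, b, h1, h2, h3⟩)
    · exact Or.inr ⟨a, b, h2, h1, h3⟩
    · exact Or.inl ⟨a, b, h2, h1, h3⟩⟩
  loopless := ⟨by
    rintro u (⟨a, b, h1, h2, h3⟩ | ⟨a, b, h1, h2, h3⟩)
    · rw [h1] at h2; cases h2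
    · rw [h1] at h2; cases h2⟩

lemma GG_adj (ω : Fin n × Fin n → Fin L) (a b : Fin n) :
    (GG ω).Adj (Sum.inl a) (Sum.inr b) ↔ ed ω (a, b) := by
  constructor
  · rintro (⟨a', b', h1, h2, h3⟩ | ⟨a', b', h1, h2, h3⟩)
    · rw [Sum.inl.injEq] at h1
      rw [Sum.inr.injEq] at h2
      rw [h1, h2]; exact h3
    · cases h1
  · intro h; exact Or.inl ⟨a, b, rfl, rfl, h⟩

lemma box_nonempty_iff (x y x' y' : Fin d → ℝ) (hxy : x ≤ y) (hxy' : x' ≤ y') :
    (Set.Icc x y ∩ Set.Icc x' y').Nonempty ↔ ∀ i, x i ≤ y' i ∧ x' i ≤ y i := by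
  rw [Set.Icc_inter_Icc, Set.nonempty_Icc]
  constructor
  · intro h i
    have h1 := h i
    simp only [Pi.sup_apply, Pi.inf_apply] at h1
    exact ⟨(le_sup_left.trans h1).trans inf_le_right, (le_sup_right.trans h1).trans inf_le_left⟩
  · intro h i
    simp only [Pi.sup_apply, Pi.inf_apply]
    exact sup_le (le_inf (hxy i) (h i).1) (le_inf (h i).2 (hxy' i))

/-- a single chain graph inside the non-edges is covered by two lists -/
lemma chain_lists (hsn : s ≤ n) (ω : Fin n × Fin n → Fin L)
    (hne : ∀ P Q : Fin s → Fin n, Function.Injective P → Function.Injective Q →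
      ∃ i k, ed ω (P i, Q k))
    (f g : Fin n → ℝ) (hfg : ∀ a b, f a < g b → ¬ ed ω (a, b)) :
    ∃ t r : Fin s → Fin n, Function.Injective t ∧ Function.Injective r ∧
      ∀ a b, f a < g b → (∃ i0, t i0 = a ∧ ∀ i, i < i0 → ¬ ed ω (t i, b)) ∨
        (∃ i0, r i0 = b ∧ ∀ i, i < i0 → ¬ ed ω (a, r i)) := by
  set σ := Tuple.sort f with hσ
  set τ := Tuple.sort (fun b => - g b) with hτ
  have mσ : Monotone (f ∘ σ) := Tuple.monotone_sort f
  have mτ : Monotone ((fun b => - g b) ∘ τ) := Tuple.monotone_sort _
  set t : Fin s → Fin n := fun i => σ (Fin.castLE hsn i) with ht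
  set r : Fin s → Fin n := fun i => τ (Fin.castLE hsn i) with hr
  have tinj : Function.Injective t := by
    intro i i' h
    have := σ.injective h
    exact Fin.castLE_injective hsn this
  have rinj : Function.Injective r := by
    intro i i' h
    have := τ.injective h
    exact Fin.castLE_injective hsn this
  refine ⟨t, r, tinj, rinj, ?_⟩
  intro a b hab
  by_cases ha : ∃ i0, t i0 = a
  · left
    obtain ⟨i0, hi0⟩ := ha
    refine ⟨i0, hi0, ?_⟩
    intro i hi
    apply hfg
    have h1 : f (t i) ≤ f (t i0) := mσ (show Fin.castLE hsn i ≤ Fin.castLE hsn i0 from hi.le)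
    rw [hi0] at h1
    exact lt_of_le_of_lt h1 hab
  · by_cases hb : ∃ i0, r i0 = b
    · right
      obtain ⟨i0, hi0⟩ := hb
      refine ⟨i0, hi0, ?_⟩
      intro i hi
      apply hfg
      have h1 : - g (r i) ≤ - g (r i0) :=
        mτ (show Fin.castLE hsn i ≤ Fin.castLE hsn i0 from hi.le)
      rw [hi0] at h1
      linarith
    · exfalso
      obtain ⟨i, k, hik⟩ := hne t r tinj rinj
      apply hfg _ _ _ hik
      have h1 : f (t i) ≤ f a := by
        have h2 : Fin.castLE hsn i ≤ σ.symm a := by
          by_contra hlt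
          push Not at hlt
          apply ha
          have h3 : (σ.symm a : ℕ) < s := lt_trans hlt i.isLt
          refine ⟨⟨(σ.symm a : ℕ), h3⟩, ?_⟩
          have h4 : Fin.castLE hsn ⟨(σ.symm a : ℕ), h3⟩ = σ.symm a := by
            ext; rfl
          rw [ht]
          simp only
          rw [h4, Equiv.apply_symm_apply]
        have := mσ h2
        simp only [Function.comp, Equiv.apply_symm_apply] at this
        exact this
      have h2 : g b ≤ g (r k) := by
        have h2 : Fin.castLE hsn k ≤ τ.symm b := by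
          by_contra hlt
          push Not at hlt
          apply hb
          have h3 : (τ.symm b : ℕ) < s := lt_trans hlt k.isLt
          refine ⟨⟨(τ.symm b : ℕ), h3⟩, ?_⟩
          have h4 : Fin.castLE hsn ⟨(τ.symm b : ℕ), h3⟩ = τ.symm b := by
            ext; rfl
          rw [hr]
          simp only
          rw [h4, Equiv.apply_symm_apply]
        have := mτ h2
        simp only [Function.comp, Equiv.apply_symm_apply] at this
        have h5 : - g (r k) ≤ - g b := this
        linarith
      linarith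

theorem det (hsn : s ≤ n) (ω : Fin n × Fin n → Fin L)
    (hne : ∀ P Q : Fin s → Fin n, Function.Injective P → Function.Injective Q →
      ∃ i k, ed ω (P i, Q k))
    (hbox : HasBoxRep (GG ω) d) (hd : 2 * d ≤ m) :
    ∃ T S : Fin m → Fin s → Fin n, (∀ j, Function.Injective (T j)) ∧
      (∀ j, Function.Injective (S j)) ∧ ∀ a b, ¬ ed ω (a, b) → Cov T S ω a b := by
  obtain ⟨lo, hi, hle, hadj⟩ := hbox
  have key : ∀ a b, ed ω (a, b) ↔
      ∀ i, lo (Sum.inl a) i ≤ hi (Sum.inr b) i ∧ lo (Sum.inr b) i ≤ hi (Sum.inl a) i := by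
    intro a b
    rw [← GG_adj, hadj _ _ (by simp), box_nonempty_iff _ _ _ _ (hle _) (hle _)]
  -- the chain graphs
  have hch : ∀ q : Fin d × Bool, ∃ f g : Fin n → ℝ, (∀ a b, f a < g b → ¬ ed ω (a, b)) ∧
      (∀ a b, f a < g b ↔ (if q.2 then hi (Sum.inl a) q.1 < lo (Sum.inr b) q.1
        else hi (Sum.inr b) q.1 < lo (Sum.inl a) q.1)) := by
    rintro ⟨i, e⟩
    cases e
    · refine ⟨fun a => - lo (Sum.inl a) i, fun b => - hi (Sum.inr b) i, ?_, ?_⟩
      · intro a b h hed
        have := ((key a b).mp hed i).1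
        linarith
      · intro a b
        simp only [Bool.false_eq_true, if_false]
        constructor <;> intro h <;> linarith
    · refine ⟨fun a => hi (Sum.inl a) i, fun b => lo (Sum.inr b) i, ?_, ?_⟩
      · intro a b h hed
        have := ((key a b).mp hed i).2
        linarith
      · intro a b
        simp only [if_true]
  choose f g hfg hfg2 using hch
  have hl := fun q => chain_lists hsn ω hne (f q) (g q) (hfg q)
  choose t r tinj rinj hcov using hl
  have hemb : Nonempty ((Fin d × Bool) ↪ Fin m) := by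
    apply Function.Embedding.nonempty_of_card_le
    simp only [Fintype.card_prod, Fintype.card_fin, Fintype.card_bool]
    omega
  obtain ⟨e⟩ := hemb
  refine ⟨fun j => if h : ∃ q, e q = j then t h.choose else Fin.castLE hsn,
    fun j => if h : ∃ q, e q = j then r h.choose else Fin.castLE hsn, ?_, ?_, ?_⟩
  · intro j
    by_cases h : ∃ q, e q = j
    · simp only [dif_pos h]; exact tinj _
    · simp only [dif_neg h]; exact Fin.castLE_injective hsn
  · intro j
    by_cases h : ∃ q, e q = j
    · simp only [dif_pos h]; exact rinj _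
    · simp only [dif_neg h]; exact Fin.castLE_injective hsn
  · intro a b hab
    have h1 : ∃ q, f q a < g q b := by
      rw [key] at hab
      push Not at hab
      obtain ⟨i, hi'⟩ := hab
      by_cases hc : lo (Sum.inl a) i ≤ hi (Sum.inr b) i
      · refine ⟨(i, true), ?_⟩
        rw [hfg2]
        simpa using hi' hc
      · refine ⟨(i, false), ?_⟩
        rw [hfg2]
        simpa using hc
    obtain ⟨q, hq⟩ := h1
    have hex : ∃ q', e q' = e q := ⟨q, rfl⟩
    have hch : hex.choose = q := e.injective hex.choose_spec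
    rcases hcov q a b hq with ⟨i0, h2, h3⟩ | ⟨i0, h2, h3⟩
    · left
      refine ⟨(e q, i0), ?_, ?_⟩
      · simp only [dif_pos hex, hch]; exact h2
      · intro i hi'
        simp only [dif_pos hex, hch]
        exact h3 i hi'
    · right
      refine ⟨(e q, i0), ?_, ?_⟩
      · simp only [dif_pos hex, hch]; exact h2
      · intro i hi'
        simp only [dif_pos hex, hch]
        exact h3 i hi'

end

end TH171.Bx
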