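import Pool.Agent.TH171.Bx.Pr

/-!
# Random edges: each coordinate is an edge with probability `1 / L`
-/

open Finset
open scoped Classical

set_option linter.unusedSectionVars false

namespace TH171.Bx

noncomputable section

variable {X : Type} [Fintype X] {L : ℕ} [NeZero L]

/-- the coordinate `x` is an edge -/
def ed (ω : X → Fin L) (x : X) : Prop := (ω x : ℕ) + 1 = L

/-- the probability of a non-edge -/
def uu (L : ℕ) : ℝ := 1 - 1 / (L : ℝ)

lemma Lpos : (0 : ℝ) < L := by
  have : 0 < L := Nat.pos_of_ne_zero (NeZero.ne L)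
  exact_mod_cast this

lemma uu_nonneg : 0 ≤ uu L := by
  unfold uu
  have h1 : (1 : ℝ) ≤ L := by
    have : 1 ≤ L := Nat.pos_of_ne_zero (NeZero.ne L)
    exact_mod_cast this
  have : 1 / (L : ℝ) ≤ 1 := by rw [div_le_one Lpos]; exact h1
  linarith

lemma uu_lt_one : uu L < 1 := by
  unfold uu
  have : 0 < 1 / (L : ℝ) := div_pos one_pos Lpos
  linarith

lemma ed_mono {ω ω' : X → Fin L} (h : ω ≤ ω') {x : X} (hx : ed ω x) : ed ω' x := by
  unfold ed at *
  have h1 : (ω x : ℕ) ≤ (ω' x : ℕ) := h x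
  have h2 := (ω' x).isLt
  omega

lemma card_nonedge : (univ.filter (fun y : Fin L => ¬ ((y : ℕ) + 1 = L))).card = L - 1 := by
  have hL : 0 < L := Nat.pos_of_ne_zero (NeZero.ne L)
  have h1 : (univ.filter (fun y : Fin L => ((y : ℕ) + 1 = L))) = {⟨L - 1, by omega⟩} := by
    ext y
    simp only [Finset.mem_filter, Finset.mem_univ, true_and, Finset.mem_singleton, Fin.ext_iff]
    omega
  have h2 := Finset.card_filter_add_card_filter_not (s := (univ : Finset (Fin L)))
    (fun y : Fin L => ((y : ℕ) + 1 = L))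
  rw [h1, Finset.card_singleton, Finset.card_univ, Fintype.card_fin] at h2
  omega

lemma pr_empty (E : Finset X) : pr (fun ω : X → Fin L => ∀ x ∈ E, ¬ ed ω x) = (uu L) ^ E.card := by
  have hL : 0 < L := Nat.pos_of_ne_zero (NeZero.ne L)
  have h1 : ∑ ω : X → Fin L, ind (fun ω : X → Fin L => ∀ x ∈ E, ¬ ed ω x) ω
      = ∏ x : X, (if x ∈ E then ((L : ℝ) - 1) else (L : ℝ)) := by
    have e1 : ∑ ω : X → Fin L, ind (fun ω : X → Fin L => ∀ x ∈ E, ¬ ed ω x) ω
        = ((univ.filter (fun ω : X → Fin L => ∀ x ∈ E, ¬ ed ω x)).card : ℝ) := by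
      simp only [ind]
      rw [Finset.natCast_card_filter]
      refine Finset.sum_congr rfl (fun ω _ => ?_)
      by_cases h : ∀ x ∈ E, ¬ ed ω x
      · rw [if_pos h, if_pos h]
      · rw [if_neg h, if_neg h]
    have e2 : (univ.filter (fun ω : X → Fin L => ∀ x ∈ E, ¬ ed ω x))
        = Fintype.piFinset (fun x : X => if x ∈ E then
            (univ.filter (fun y : Fin L => ¬ ((y : ℕ) + 1 = L))) else univ) := by
      ext ω
      simp only [Finset.mem_filter, Finset.mem_univ, true_and, Fintype.mem_piFinset]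
      constructor
      · intro h x
        split_ifs with hx
        · simpa [ed] using h x hx
        · simp
      · intro h x hx
        have := h x
        simpa [hx, ed] using this
    rw [e1, e2, Fintype.card_piFinset, Nat.cast_prod]
    refine Finset.prod_congr rfl (fun x _ => ?_)
    split_ifs with hx
    · rw [card_nonedge, Nat.cast_sub hL, Nat.cast_one]
    · simp
  have h2 : (Fintype.card (X → Fin L) : ℝ) = ∏ _x : X, (L : ℝ) := by
    rw [Finset.prod_const, Fintype.card_fun, Fintype.card_fin, Finset.card_univ]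
    push_cast; rfl
  unfold pr
  rw [h1, h2, ← Finset.prod_div_distrib]
  have h3 : ∀ x : X, (if x ∈ E then ((L : ℝ) - 1) else (L : ℝ)) / (L : ℝ)
      = if x ∈ E then uu L else 1 := by
    intro x
    have := Lpos (L := L)
    split_ifs with hx
    · unfold uu; field_simp
    · field_simp
  rw [Finset.prod_congr rfl (fun x _ => h3 x), Finset.prod_ite_mem, Finset.univ_inter,
    Finset.prod_const]

lemma pr_hit (E : Finset X) : pr (fun ω : X → Fin L => ∃ x ∈ E, ed ω x) = 1 - (uu L) ^ E.card := by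
  rw [← pr_empty E, ← pr_not]
  refine pr_congr (fun ω => ?_)
  push Not
  rfl

lemma pr_U {ι : Type*} (J : Finset ι) (C : ι → Finset X) (e0 : X) (h0 : ∀ j ∈ J, e0 ∉ C j) :
    uu L * ∏ j ∈ J, (1 - (uu L) ^ (C j).card) ≤
      pr (fun ω : X → Fin L => ¬ ed ω e0 ∧ ∀ j ∈ J, ∃ x ∈ C j, ed ω x) := by
  have h1 : pr (fun ω : X → Fin L => ¬ ed ω e0) = uu L := by
    have := pr_empty (L := L) ({e0} : Finset X)
    simpa using this
  have hd1 : Dep (fun ω : X → Fin L => ¬ ed ω e0) {e0} := by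
    intro ω ω' hx hn
    have := hx e0 rfl
    unfold ed at *
    rwa [← this]
  have hd2 : Dep (fun ω : X → Fin L => ∀ j ∈ J, ∃ x ∈ C j, ed ω x) {e0}ᶜ := by
    intro ω ω' hx hn j hj
    obtain ⟨x, hxC, hxe⟩ := hn j hj
    refine ⟨x, hxC, ?_⟩
    have hne : x ≠ e0 := fun h => h0 j hj (h ▸ hxC)
    have := hx x (by simpa using hne)
    unfold ed at *
    rwa [← this]
  have h2 := pr_and_of_dep hd1 hd2 disjoint_compl_right
  rw [h2, h1]
  refine mul_le_mul_of_nonneg_left ?_ uu_nonneg
  have h3 := pr_forall_mono J (fun j (ω : X → Fin L) => ∃ x ∈ C j, ed ω x)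
    (fun j _ ω ω' hle ⟨x, hx, hxe⟩ => ⟨x, hx, ed_mono hle hxe⟩)
  calc ∏ j ∈ J, (1 - (uu L) ^ (C j).card)
      = ∏ j ∈ J, pr (fun ω : X → Fin L => ∃ x ∈ C j, ed ω x) :=
        Finset.prod_congr rfl (fun j _ => (pr_hit (C j)).symm)
    _ ≤ _ := h3

end

end TH171.Bx
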