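import Pool.Agent.TH171.Bx.Num

/-!
# The random graph of boxicity at least `n / 16` without a complete minor of order `4 n / L`
-/

open Finset
open scoped Classical

set_option linter.unusedSectionVars false

namespace TH171.Bx

noncomputable section

variable {L : ℕ} [NeZero L]

lemma pr_false {X : Type} [Fintype X] {V : (X → Fin L) → Prop} (h : ∀ ω, ¬ V ω) : pr V = 0 := by
  have : pr V ≤ pr (fun _ : X → Fin L => ¬ True) := pr_mono (fun ω hω => absurd hω (h ω))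
  rw [pr_not, pr_true, sub_self] at this
  exact le_antisymm this (pr_nonneg _)

/-- an empty `s × s` subgraph -/
def V1 {n s : ℕ} (PQ : (Fin s → Fin n) × (Fin s → Fin n)) (ω : Fin n × Fin n → Fin L) : Prop :=
  (Function.Injective PQ.1 ∧ Function.Injective PQ.2) ∧ ∀ i k, ¬ ed ω (PQ.1 i, PQ.2 k)

/-- the lists cover everything -/
def V2 {n s m : ℕ} (TS : (Fin m → Fin s → Fin n) × (Fin m → Fin s → Fin n))
    (ω : Fin n × Fin n → Fin L) : Prop :=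
  ((∀ j, Function.Injective (TS.1 j)) ∧ (∀ j, Function.Injective (TS.2 j))) ∧
    ∀ a b, ¬ ed ω (a, b) → Cov TS.1 TS.2 ω a b

lemma pr_V1 {n s : ℕ} (PQ : (Fin s → Fin n) × (Fin s → Fin n)) :
    pr (V1 (L := L) PQ) ≤ (uu L) ^ (s * s) := by
  by_cases h : Function.Injective PQ.1 ∧ Function.Injective PQ.2
  · set E : Finset (Fin n × Fin n) := (univ : Finset (Fin s × Fin s)).image
      (fun x => (PQ.1 x.1, PQ.2 x.2)) with hE
    have hc : E.card = s * s := by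
      rw [hE, Finset.card_image_of_injective, Finset.card_univ, Fintype.card_prod,
        Fintype.card_fin]
      rintro ⟨i, k⟩ ⟨i', k'⟩ hh
      simp only [Prod.mk.injEq] at hh
      exact Prod.ext (h.1 hh.1) (h.2 hh.2)
    rw [← hc, ← pr_empty]
    refine pr_mono ?_
    rintro ω ⟨_, hω⟩ x hx
    rw [hE, Finset.mem_image] at hx
    obtain ⟨y, _, rfl⟩ := hx
    exact hω _ _
  · rw [pr_false (fun ω hω => h hω.1)]
    exact pow_nonneg uu_nonneg _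

lemma size_A (hL : 16 ≤ L) {a : ℕ}
    (h : 2 ^ (20 * L) ≤ a * ((1 + 2 ^ L * 2 ^ L) * (1 + 2 ^ L * 2 ^ L)) + 3 * 2 ^ (20 * L - 3)) :
    (2 ^ L) ^ 16 ≤ 8 * a := by
  set s := 2 ^ L with hs
  have h1 : 2 ^ (20 * L) = s ^ 20 := by rw [hs, ← pow_mul, mul_comm]
  have h2 : 8 * 2 ^ (20 * L - 3) = s ^ 20 := by
    rw [← h1]
    have : 8 * 2 ^ (20 * L - 3) = 2 ^ 3 * 2 ^ (20 * L - 3) := by norm_num
    rw [this, ← pow_add]; congr 1; omega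
  rw [h1] at h
  by_contra hn
  push Not at hn
  have hs1 : 1 ≤ s := Nat.one_le_two_pow
  have h3 : (1 + s * s) * (1 + s * s) ≤ 4 * s ^ 4 := by
    have : 1 + s * s ≤ 2 * (s * s) := by nlinarith
    calc (1 + s * s) * (1 + s * s) ≤ (2 * (s * s)) * (2 * (s * s)) := Nat.mul_le_mul this this
      _ = 4 * s ^ 4 := by ring
  have h4 : 8 * a * ((1 + s * s) * (1 + s * s)) ≤ s ^ 16 * (4 * s ^ 4) :=
    Nat.mul_le_mul hn.le h3
  have h5 : s ^ 16 * (4 * s ^ 4) = 4 * s ^ 20 := by ring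
  have h6 : 0 < s ^ 20 := by positivity
  have h7 : 8 * a * ((1 + s * s) * (1 + s * s)) = 8 * (a * ((1 + s * s) * (1 + s * s))) := by
    ring
  omega

lemma pr_V2 (hL : 16 ≤ L) (TS : (Fin (2 ^ (20 * L - 3)) → Fin (2 ^ L) → Fin (2 ^ (20 * L))) ×
    (Fin (2 ^ (20 * L - 3)) → Fin (2 ^ L) → Fin (2 ^ (20 * L)))) :
    pr (V2 (L := L) TS) ≤ 1 / 4 / (((((2 ^ (20 * L) : ℕ) : ℝ) ^ (2 ^ L)) ^ (2 ^ (20 * L - 3))) *
      ((((2 ^ (20 * L) : ℕ) : ℝ) ^ (2 ^ L)) ^ (2 ^ (20 * L - 3)))) := by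
  have hpos : (0 : ℝ) < (((((2 ^ (20 * L) : ℕ) : ℝ) ^ (2 ^ L)) ^ (2 ^ (20 * L - 3))) *
      ((((2 ^ (20 * L) : ℕ) : ℝ) ^ (2 ^ L)) ^ (2 ^ (20 * L - 3)))) := by positivity
  by_cases h : (∀ j, Function.Injective (TS.1 j)) ∧ (∀ j, Function.Injective (TS.2 j))
  · obtain ⟨A, hA0, hA1, hA2, hA3⟩ := select TS.1 h.1 L (by positivity)
    obtain ⟨B, hB0, hB1, hB2, hB3⟩ := select TS.2 h.2 L (by positivity)
    have h1 := pr_cov TS.1 TS.2 h.1 h.2 hA1 hA2 hA3 hB1 hB2 hB3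
    have h2 := num2 hL (size_A hL hA0) (size_A hL hB0)
    rw [le_div_iff₀ hpos, mul_comm]
    refine le_trans (mul_le_mul_of_nonneg_left ?_ hpos.le) h2
    exact le_trans (pr_mono (fun ω hω => hω.2)) h1
  · rw [pr_false (fun ω hω => h hω.1)]
    positivity

theorem exists_good (hL : 16 ≤ L) :
    ∃ ω : Fin (2 ^ (20 * L)) × Fin (2 ^ (20 * L)) → Fin L,
      (∀ PQ : (Fin (2 ^ L) → Fin (2 ^ (20 * L))) × (Fin (2 ^ L) → Fin (2 ^ (20 * L))),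
        ¬ V1 PQ ω) ∧
      (∀ TS : (Fin (2 ^ (20 * L - 3)) → Fin (2 ^ L) → Fin (2 ^ (20 * L))) ×
        (Fin (2 ^ (20 * L - 3)) → Fin (2 ^ L) → Fin (2 ^ (20 * L))), ¬ V2 TS ω) ∧
      (∀ c : (Fin (2 ^ (20 * L)) ⊕ Fin (2 ^ (20 * L))) →
        Option (Fin (2 ^ (20 * L) / L) ⊕ Fin (2 ^ (20 * L) / L)), ¬ MB c ω) := by
  have e1 := pr_exists (Y := Fin L) (fun (PQ : (Fin (2 ^ L) → Fin (2 ^ (20 * L))) ×
    (Fin (2 ^ L) → Fin (2 ^ (20 * L)))) (ω : Fin (2 ^ (20 * L)) × Fin (2 ^ (20 * L)) → Fin L) =>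
      V1 PQ ω) _ (fun PQ => pr_V1 PQ)
  have e2 := pr_exists (Y := Fin L) (fun (TS :
    (Fin (2 ^ (20 * L - 3)) → Fin (2 ^ L) → Fin (2 ^ (20 * L))) ×
        (Fin (2 ^ (20 * L - 3)) → Fin (2 ^ L) → Fin (2 ^ (20 * L))))
      (ω : Fin (2 ^ (20 * L)) × Fin (2 ^ (20 * L)) → Fin L) => V2 TS ω) _
      (fun TS => pr_V2 hL TS)
  have e3 := pr_exists (Y := Fin L) (fun (c : (Fin (2 ^ (20 * L)) ⊕ Fin (2 ^ (20 * L))) →
        Option (Fin (2 ^ (20 * L) / L) ⊕ Fin (2 ^ (20 * L) / L)))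
      (ω : Fin (2 ^ (20 * L)) × Fin (2 ^ (20 * L)) → Fin L) => MB c ω) _
      (fun c => pr_MB c)
  have f1 : ((Fintype.card ((Fin (2 ^ L) → Fin (2 ^ (20 * L))) ×
      (Fin (2 ^ L) → Fin (2 ^ (20 * L)))) : ℕ) : ℝ)
      = ((2 ^ (20 * L) : ℕ) : ℝ) ^ (2 ^ L) * ((2 ^ (20 * L) : ℕ) : ℝ) ^ (2 ^ L) := by
    rw [Fintype.card_prod, Fintype.card_fun, Fintype.card_fin, Fintype.card_fin,
      Nat.cast_mul, Nat.cast_pow (2 ^ (20 * L)) (2 ^ L)]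
  have f2 : ((Fintype.card ((Fin (2 ^ (20 * L - 3)) → Fin (2 ^ L) → Fin (2 ^ (20 * L))) ×
        (Fin (2 ^ (20 * L - 3)) → Fin (2 ^ L) → Fin (2 ^ (20 * L)))) : ℕ) : ℝ)
      = (((((2 ^ (20 * L) : ℕ) : ℝ) ^ (2 ^ L)) ^ (2 ^ (20 * L - 3))) *
      ((((2 ^ (20 * L) : ℕ) : ℝ) ^ (2 ^ L)) ^ (2 ^ (20 * L - 3)))) := by
    rw [Fintype.card_prod, Fintype.card_fun, Fintype.card_fun, Fintype.card_fin,
      Fintype.card_fin, Fintype.card_fin,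
      Nat.cast_mul, Nat.cast_pow _ (2 ^ (20 * L - 3)), Nat.cast_pow (2 ^ (20 * L)) (2 ^ L)]
  have f3 : ((Fintype.card ((Fin (2 ^ (20 * L)) ⊕ Fin (2 ^ (20 * L))) →
        Option (Fin (2 ^ (20 * L) / L) ⊕ Fin (2 ^ (20 * L) / L))) : ℕ) : ℝ)
      = ((2 * (2 ^ (20 * L) / L) + 1 : ℕ) : ℝ) ^ (2 * 2 ^ (20 * L)) := by
    rw [Fintype.card_fun, Fintype.card_option, Fintype.card_sum, Fintype.card_sum,
      Fintype.card_fin, Fintype.card_fin, Nat.cast_pow]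
    congr 2
    · rw [two_mul]
    · rw [two_mul]
  rw [f1] at e1
  rw [f2, mul_div_cancel₀ _ (by positivity)] at e2
  rw [f3] at e3
  have g1 := e1.trans (num1 hL)
  have g3 := e3.trans (num3 hL)
  have h := (pr_or (fun ω : Fin (2 ^ (20 * L)) × Fin (2 ^ (20 * L)) → Fin L =>
    ∃ PQ, V1 (s := 2 ^ L) PQ ω) (fun ω =>
      (∃ TS, V2 (s := 2 ^ L) (m := 2 ^ (20 * L - 3)) TS ω) ∨
      (∃ c : (Fin (2 ^ (20 * L)) ⊕ Fin (2 ^ (20 * L))) →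
        Option (Fin (2 ^ (20 * L) / L) ⊕ Fin (2 ^ (20 * L) / L)), MB c ω)))
  have h' := (pr_or (fun ω : Fin (2 ^ (20 * L)) × Fin (2 ^ (20 * L)) → Fin L =>
      (∃ TS, V2 (s := 2 ^ L) (m := 2 ^ (20 * L - 3)) TS ω)) (fun ω =>
      (∃ c : (Fin (2 ^ (20 * L)) ⊕ Fin (2 ^ (20 * L))) →
        Option (Fin (2 ^ (20 * L) / L) ⊕ Fin (2 ^ (20 * L) / L)), MB c ω)))
  obtain ⟨ω, hω⟩ := exists_of_pr_lt_one (lt_of_le_of_lt h (by linarith))
  push Not at hω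
  exact ⟨ω, hω.1, hω.2.1, hω.2.2⟩

/-- a bipartite graph on `2 n` vertices, `n = 2 ^ (20 L)`, of boxicity at least `n / 16`,
without a complete minor of order `t` when `t L ≥ 4 n` -/
theorem exists_graph (L : ℕ) (hL : 16 ≤ L) :
    ∃ G : SimpleGraph (Fin (2 ^ (20 * L)) ⊕ Fin (2 ^ (20 * L))), G.Colorable 2 ∧
      (∀ t, 4 * 2 ^ (20 * L) ≤ t * L → ¬ HasCompleteMinor G t) ∧
      ∀ d, HasBoxRep G d → 2 ^ (20 * L - 4) ≤ d := by
  have : NeZero L := ⟨by omega⟩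
  obtain ⟨ω, h1, h2, h3⟩ := exists_good hL
  refine ⟨GG ω, ?_, ?_, ?_⟩
  · refine ⟨SimpleGraph.Coloring.mk (fun v => if v.isLeft then (0 : Fin 2) else 1) ?_⟩
    rintro u v (⟨a, b, rfl, rfl, _⟩ | ⟨a, b, rfl, rfl, _⟩)
    · simp
    · simp
  · intro t ht hm
    obtain ⟨c, hc⟩ := minor_colour (k := 2 ^ (20 * L) / L) ω hm ht (Nat.div_mul_le_self _ _)
    exact h3 c hc
  · intro d hd
    by_contra hn
    push Not at hn
    have hm : 2 * d ≤ 2 ^ (20 * L - 3) := by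
      have : 2 ^ (20 * L - 3) = 2 * 2 ^ (20 * L - 4) := by
        rw [← pow_succ']; congr 1; omega
      omega
    obtain ⟨T, S, hT, hS, hc⟩ := det (s := 2 ^ L) (m := 2 ^ (20 * L - 3))
      (Nat.pow_le_pow_right (by norm_num) (by omega)) ω
      (by
        intro P Q hP hQ
        by_contra hne
        push Not at hne
        exact h1 (P, Q) ⟨⟨hP, hQ⟩, hne⟩) hd hm
    exact h2 (T, S) ⟨⟨hT, hS⟩, hc⟩

end

end TH171.Bx
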