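import Pool.Agent.TH171.Bx.Minor

/-!
# Numerical estimates
-/

open Finset
open scoped Classical

set_option linter.unusedSectionVars false

namespace TH171.Bx

noncomputable section

lemma two_pow_ge (L : ℕ) (hL : 16 ≤ L) : 41 * L ^ 2 ≤ 2 ^ L := by
  induction L, hL using Nat.le_induction with
  | base => norm_num
  | succ k hk ih =>
    rw [pow_succ 2 k]
    nlinarith

lemma two_pow_le_exp (j : ℕ) : (2 : ℝ) ^ j ≤ Real.exp j := by
  have h1 : (2 : ℝ) ≤ Real.exp 1 := by have := Real.exp_one_gt_d9; linarith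
  calc (2 : ℝ) ^ j ≤ (Real.exp 1) ^ j := pow_le_pow_left₀ (by norm_num) h1 j
    _ = Real.exp j := by rw [← Real.exp_nat_mul, mul_one]

lemma exp_neg_two_le : Real.exp (-2) ≤ 1 / 4 := by
  have h1 : (2 : ℝ) ≤ Real.exp 1 := by have := Real.exp_one_gt_d9; linarith
  have h2 : Real.exp 2 = Real.exp 1 * Real.exp 1 := by rw [← Real.exp_add]; norm_num
  rw [Real.exp_neg, h2, ← one_div]
  apply one_div_le_one_div_of_le (by norm_num)
  nlinarith

section
variable {L : ℕ} [NeZero L]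

lemma uu_le_exp : uu L ≤ Real.exp (-(1 / (L : ℝ))) := by
  unfold uu
  exact Real.one_sub_le_exp_neg _

lemma uu_ge_half (hL : 16 ≤ L) : 1 / 2 ≤ uu L := by
  unfold uu
  have h1 : (16 : ℝ) ≤ L := by exact_mod_cast hL
  have h2 : 1 / (L : ℝ) ≤ 1 / 2 := one_div_le_one_div_of_le (by norm_num) (by linarith)
  linarith

lemma exp_le_uu (hL : 16 ≤ L) : Real.exp (-(2 / (L : ℝ))) ≤ uu L := by
  have h0 := uu_ge_half hL
  have hu : 0 < uu L := by linarith
  have h1 : (16 : ℝ) ≤ L := by exact_mod_cast hL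
  have h2 := Real.one_sub_inv_le_log_of_pos hu
  have h3 : -(2 / (L : ℝ)) ≤ 1 - (uu L)⁻¹ := by
    have h4 : (uu L)⁻¹ ≤ 1 + 2 / (L : ℝ) := by
      rw [inv_le_iff_one_le_mul₀ hu]
      have h5 : uu L = 1 - 1 / (L : ℝ) := rfl
      set z := 1 / (L : ℝ) with hz
      have h6 : 2 / (L : ℝ) = 2 * z := by rw [hz]; ring
      rw [h5, h6]
      have hz0 : 0 < z := by positivity
      have hz1 : z ≤ 1 / 2 := by linarith
      nlinarith
    linarith
  calc Real.exp (-(2 / (L : ℝ))) ≤ Real.exp (Real.log (uu L)) :=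
        Real.exp_le_exp.mpr (h3.trans h2)
    _ = uu L := Real.exp_log hu

/-- real parameters -/
lemma S_ge (hL : 16 ≤ L) : 41 * (L : ℝ) ^ 2 ≤ (2 : ℝ) ^ L := by
  exact_mod_cast two_pow_ge L hL

lemma num1 (hL : 16 ≤ L) :
    (((2 ^ (20 * L) : ℕ) : ℝ) ^ (2 ^ L) * ((2 ^ (20 * L) : ℕ) : ℝ) ^ (2 ^ L))
      * (uu L) ^ (2 ^ L * 2 ^ L) ≤ 1 / 4 := by
  have hL1 : (16 : ℝ) ≤ L := by exact_mod_cast hL
  have hS := S_ge hL
  have hn : ((2 ^ (20 * L) : ℕ) : ℝ) ≤ Real.exp (20 * L) := by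
    have := two_pow_le_exp (20 * L)
    push_cast at this ⊢
    exact this
  have hn0 : (0 : ℝ) ≤ ((2 ^ (20 * L) : ℕ) : ℝ) := Nat.cast_nonneg _
  have h1 : ((2 ^ (20 * L) : ℕ) : ℝ) ^ (2 ^ L) ≤ Real.exp (20 * L * (2 : ℝ) ^ L) := by
    calc _ ≤ (Real.exp (20 * L)) ^ (2 ^ L) := pow_le_pow_left₀ hn0 hn _
      _ = Real.exp (20 * L * (2 : ℝ) ^ L) := by
        rw [← Real.exp_nat_mul]; congr 1; push_cast; ring
  have h2 : (uu L) ^ (2 ^ L * 2 ^ L) ≤ Real.exp (-(((2 : ℝ) ^ L) * ((2 : ℝ) ^ L) / L)) := by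
    calc _ ≤ (Real.exp (-(1 / (L : ℝ)))) ^ (2 ^ L * 2 ^ L) :=
          pow_le_pow_left₀ uu_nonneg uu_le_exp _
      _ = _ := by
        rw [← Real.exp_nat_mul]; congr 1; push_cast; ring
  have h3 : (((2 ^ (20 * L) : ℕ) : ℝ) ^ (2 ^ L) * ((2 ^ (20 * L) : ℕ) : ℝ) ^ (2 ^ L))
      * (uu L) ^ (2 ^ L * 2 ^ L)
      ≤ (Real.exp (20 * L * (2 : ℝ) ^ L) * Real.exp (20 * L * (2 : ℝ) ^ L))
        * Real.exp (-(((2 : ℝ) ^ L) * ((2 : ℝ) ^ L) / L)) := by
    refine mul_le_mul (mul_le_mul h1 h1 (by positivity) (by positivity)) h2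
      (pow_nonneg uu_nonneg _) (by positivity)
  refine h3.trans ?_
  rw [← Real.exp_add, ← Real.exp_add]
  refine le_trans (Real.exp_le_exp.mpr ?_) exp_neg_two_le
  set S := (2 : ℝ) ^ L with hSdef
  have hSpos : 0 < S := by positivity
  have h4 : 41 * L * S ≤ S * S / L := by
    rw [le_div_iff₀ (by linarith)]
    nlinarith
  have h5 : 2 ≤ L * S := by nlinarith
  nlinarith

lemma num2 (hL : 16 ≤ L) {a b : ℕ} (ha : (2 ^ L) ^ 16 ≤ 8 * a) (hb : (2 ^ L) ^ 16 ≤ 8 * b) :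
    (((((2 ^ (20 * L) : ℕ) : ℝ) ^ (2 ^ L)) ^ (2 ^ (20 * L - 3))) *
      ((((2 ^ (20 * L) : ℕ) : ℝ) ^ (2 ^ L)) ^ (2 ^ (20 * L - 3)))) *
      (1 - uu L * (Real.exp (-(3 * L)) * Real.exp (-(3 * L)))) ^ (a * b) ≤ 1 / 4 := by
  have hL1 : (16 : ℝ) ≤ L := by exact_mod_cast hL
  have hS := S_ge hL
  have hn : ((2 ^ (20 * L) : ℕ) : ℝ) ≤ Real.exp (20 * L) := by
    have := two_pow_le_exp (20 * L)
    push_cast at this ⊢
    exact this
  have hn0 : (0 : ℝ) ≤ ((2 ^ (20 * L) : ℕ) : ℝ) := Nat.cast_nonneg _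
  set S := (2 : ℝ) ^ L with hSdef
  have hSpos : 0 < S := by positivity
  have hm : (((2 ^ (20 * L - 3) : ℕ)) : ℝ) = S ^ 20 / 8 := by
    have e1 : 2 ^ (20 * L - 3) * 2 ^ 3 = 2 ^ (20 * L) := by
      rw [← pow_add]; congr 1; omega
    have e2 : ((2 ^ (20 * L - 3) : ℕ) : ℝ) * 8 = (2 : ℝ) ^ (20 * L) := by
      have : ((2 ^ (20 * L - 3) * 2 ^ 3 : ℕ) : ℝ) = ((2 ^ (20 * L) : ℕ) : ℝ) := by rw [e1]
      push_cast at this ⊢
      linarith
    have e3 : S ^ 20 = (2 : ℝ) ^ (20 * L) := by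
      rw [hSdef, ← pow_mul, mul_comm]
    rw [e3]
    linarith
  have h1 : (((2 ^ (20 * L) : ℕ) : ℝ) ^ (2 ^ L)) ^ (2 ^ (20 * L - 3))
      ≤ Real.exp (20 * L * S * (S ^ 20 / 8)) := by
    calc _ = ((2 ^ (20 * L) : ℕ) : ℝ) ^ (2 ^ L * 2 ^ (20 * L - 3)) := (pow_mul _ _ _).symm
      _ ≤ (Real.exp (20 * L)) ^ (2 ^ L * 2 ^ (20 * L - 3)) := pow_le_pow_left₀ hn0 hn _
      _ = Real.exp (20 * L * S * (S ^ 20 / 8)) := by
        rw [← Real.exp_nat_mul]; congr 1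
        rw [← hm]; push_cast; ring
  set q := uu L * (Real.exp (-(3 * L)) * Real.exp (-(3 * L))) with hq
  have hq1 : 1 / (2 * S ^ 9) ≤ q := by
    have e1 : Real.exp (-(3 * L)) * Real.exp (-(3 * L)) = Real.exp (-(6 * L)) := by
      rw [← Real.exp_add]; congr 1; ring
    have e2 : Real.exp (6 * L) ≤ S ^ 9 := by
      have e3 : Real.exp 6 ≤ 2 ^ 9 := by
        have e4 : Real.exp 6 = (Real.exp 1) ^ 6 := by rw [← Real.exp_nat_mul]; norm_num
        rw [e4]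
        have e5 : Real.exp 1 ≤ 2.7182818286 := Real.exp_one_lt_d9.le
        calc (Real.exp 1) ^ 6 ≤ (2.7182818286 : ℝ) ^ 6 :=
              pow_le_pow_left₀ (Real.exp_pos 1).le e5 6
          _ ≤ 2 ^ 9 := by norm_num
      calc Real.exp (6 * L) = (Real.exp 6) ^ L := by rw [← Real.exp_nat_mul]; congr 1; ring
        _ ≤ ((2 : ℝ) ^ 9) ^ L := pow_le_pow_left₀ (Real.exp_pos _).le e3 L
        _ = S ^ 9 := by rw [hSdef, ← pow_mul, ← pow_mul, mul_comm]
    rw [hq, e1, Real.exp_neg]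
    have e6 : 1 / S ^ 9 ≤ (Real.exp (6 * L))⁻¹ := by
      rw [← one_div]; exact one_div_le_one_div_of_le (Real.exp_pos _) e2
    calc 1 / (2 * S ^ 9) = 1 / 2 * (1 / S ^ 9) := by ring
      _ ≤ uu L * (Real.exp (6 * L))⁻¹ :=
        mul_le_mul (uu_ge_half hL) e6 (by positivity) uu_nonneg
  have hq2 : q ≤ 1 := by
    rw [hq]
    have e1 : Real.exp (-(3 * (L : ℝ))) ≤ 1 := Real.exp_le_one_iff.mpr (by linarith)
    have e2 : Real.exp (-(3 * (L : ℝ))) * Real.exp (-(3 * L)) ≤ 1 :=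
      mul_le_one₀ e1 (Real.exp_pos _).le e1
    exact mul_le_one₀ uu_lt_one.le (by positivity) e2
  have h2 : (1 - q) ^ (a * b) ≤ Real.exp (-(S ^ 23 / 128)) := by
    calc (1 - q) ^ (a * b) ≤ (Real.exp (-q)) ^ (a * b) :=
          pow_le_pow_left₀ (by linarith) (Real.one_sub_le_exp_neg q) _
      _ = Real.exp (-(q * (a * b))) := by rw [← Real.exp_nat_mul]; congr 1; push_cast; ring
      _ ≤ _ := by
        apply Real.exp_le_exp.mpr
        apply neg_le_neg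
        have ha' : S ^ 16 ≤ 8 * a := by rw [hSdef]; exact_mod_cast ha
        have hb' : S ^ 16 ≤ 8 * b := by rw [hSdef]; exact_mod_cast hb
        have hab : S ^ 16 * S ^ 16 ≤ (8 * a) * (8 * b) :=
          mul_le_mul ha' hb' (by positivity) (by positivity)
        have hab' : S ^ 32 / 64 ≤ (a : ℝ) * b := by
          have : S ^ 16 * S ^ 16 = S ^ 32 := by ring
          linarith
        calc S ^ 23 / 128 = 1 / (2 * S ^ 9) * (S ^ 32 / 64) := by field_simp; ring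
          _ ≤ q * (a * b) := mul_le_mul hq1 hab' (by positivity)
              (le_trans (by positivity) hq1)
  have h3 := mul_le_mul (mul_le_mul h1 h1 (by positivity) (by positivity)) h2
    (pow_nonneg (by linarith) _) (by positivity)
  refine h3.trans ?_
  rw [← Real.exp_add, ← Real.exp_add]
  refine le_trans (Real.exp_le_exp.mpr ?_) exp_neg_two_le
  have h4 : 20 * L * S * (S ^ 20 / 8) + 20 * L * S * (S ^ 20 / 8) = 5 * L * S ^ 21 := by ring
  rw [h4]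
  have h5 : S ^ 23 / 128 = S ^ 21 * (S ^ 2 / 128) := by ring
  have h6 : 6 * L ≤ S ^ 2 / 128 := by
    have : (41 * (L : ℝ) ^ 2) ^ 2 ≤ S ^ 2 := pow_le_pow_left₀ (by positivity) hS 2
    have h7 : (L : ℝ) ≤ L ^ 4 := by
      have : (1 : ℝ) ≤ L ^ 3 := one_le_pow₀ (by linarith)
      nlinarith
    nlinarith
  have h7 : S ^ 21 * (6 * L) ≤ S ^ 21 * (S ^ 2 / 128) :=
    mul_le_mul_of_nonneg_left h6 (by positivity)
  have h8 : 1 ≤ S ^ 21 := one_le_pow₀ (by nlinarith)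
  rw [h5]
  nlinarith

lemma num3 (hL : 16 ≤ L) :
    ((2 * (2 ^ (20 * L) / L) + 1 : ℕ) : ℝ) ^ (2 * 2 ^ (20 * L)) *
      (1 - (uu L) ^ (L * L)) ^ ((2 ^ (20 * L) / L) * (2 ^ (20 * L) / L)) ≤ 1 / 4 := by
  have hL1 : (16 : ℝ) ≤ L := by exact_mod_cast hL
  have hS := S_ge hL
  set S := (2 : ℝ) ^ L with hSdef
  have hSpos : 0 < S := by positivity
  set n := 2 ^ (20 * L) with hn
  set k := n / L with hk
  have hkL : k * L ≤ n := Nat.div_mul_le_self n L
  have hnS : (n : ℝ) = S ^ 20 := by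
    rw [hSdef, hn, ← pow_mul, mul_comm]; push_cast; rfl
  have hn1 : 16 ≤ n := by
    rw [hn]
    calc 16 = 2 ^ 4 := by norm_num
      _ ≤ 2 ^ (20 * L) := Nat.pow_le_pow_right (by norm_num) (by omega)
  have hkn : 2 * k + 1 ≤ n := by nlinarith
  have h1 : ((2 * k + 1 : ℕ) : ℝ) ≤ Real.exp (20 * L) := by
    have e1 : ((2 * k + 1 : ℕ) : ℝ) ≤ (n : ℝ) := by exact_mod_cast hkn
    have e2 := two_pow_le_exp (20 * L)
    refine e1.trans ?_
    rw [hn]
    push_cast at e2 ⊢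
    exact e2
  have h2 : ((2 * k + 1 : ℕ) : ℝ) ^ (2 * n) ≤ Real.exp (40 * L * n) := by
    calc _ ≤ (Real.exp (20 * L)) ^ (2 * n) := pow_le_pow_left₀ (Nat.cast_nonneg _) h1 _
      _ = _ := by rw [← Real.exp_nat_mul]; congr 1; push_cast; ring
  have hu : 1 / S ^ 3 ≤ (uu L) ^ (L * L) := by
    have e1 : (Real.exp (-(2 / (L : ℝ)))) ^ (L * L) ≤ (uu L) ^ (L * L) :=
      pow_le_pow_left₀ (Real.exp_pos _).le (exp_le_uu hL) _
    have e2 : (Real.exp (-(2 / (L : ℝ)))) ^ (L * L) = Real.exp (-(2 * L)) := by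
      rw [← Real.exp_nat_mul]; congr 1; push_cast
      field_simp
    have e3 : Real.exp (2 * L) ≤ S ^ 3 := by
      have e4 : Real.exp 2 ≤ 2 ^ 3 := by
        have e4 : Real.exp 2 = (Real.exp 1) ^ 2 := by rw [← Real.exp_nat_mul]; norm_num
        rw [e4]
        have e5 : Real.exp 1 ≤ 2.7182818286 := Real.exp_one_lt_d9.le
        calc (Real.exp 1) ^ 2 ≤ (2.7182818286 : ℝ) ^ 2 :=
              pow_le_pow_left₀ (Real.exp_pos 1).le e5 2
          _ ≤ 2 ^ 3 := by norm_num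
      calc Real.exp (2 * L) = (Real.exp 2) ^ L := by rw [← Real.exp_nat_mul]; congr 1; ring
        _ ≤ ((2 : ℝ) ^ 3) ^ L := pow_le_pow_left₀ (Real.exp_pos _).le e4 L
        _ = S ^ 3 := by rw [hSdef, ← pow_mul, ← pow_mul, mul_comm]
    refine le_trans ?_ e1
    rw [e2, Real.exp_neg, ← one_div]
    exact one_div_le_one_div_of_le (Real.exp_pos _) e3
  have hu1 : (uu L) ^ (L * L) ≤ 1 := pow_le_one₀ uu_nonneg uu_lt_one.le
  have hkr : (n : ℝ) / (2 * L) ≤ k := by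
    have e1 : n < (k + 1) * L := by
      have := Nat.lt_div_mul_add (a := n) (b := L) (by omega)
      rw [add_mul, one_mul]; exact this
    have e2 : (n : ℝ) ≤ (k + 1) * L := by exact_mod_cast e1.le
    have e3 : 2 * (L : ℝ) ≤ n := by
      rw [hnS]
      have : S ≤ S ^ 20 := le_self_pow₀ (by nlinarith) (by norm_num)
      nlinarith
    rw [div_le_iff₀ (by linarith)]
    nlinarith
  have h3 : (1 - (uu L) ^ (L * L)) ^ (k * k) ≤ Real.exp (-(1 / S ^ 3 * (k * k))) := by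
    calc _ ≤ (Real.exp (-((uu L) ^ (L * L)))) ^ (k * k) :=
          pow_le_pow_left₀ (by linarith) (Real.one_sub_le_exp_neg _) _
      _ = Real.exp (-((uu L) ^ (L * L) * (k * k))) := by
          rw [← Real.exp_nat_mul]; congr 1; push_cast; ring
      _ ≤ _ := by
          apply Real.exp_le_exp.mpr
          apply neg_le_neg
          exact mul_le_mul_of_nonneg_right hu (by positivity)
  have h4 := mul_le_mul h2 h3 (pow_nonneg (by linarith) _) (by positivity)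
  refine h4.trans ?_
  rw [← Real.exp_add]
  refine le_trans (Real.exp_le_exp.mpr ?_) exp_neg_two_le
  have h5 : (n : ℝ) / (2 * L) * ((n : ℝ) / (2 * L)) ≤ k * k :=
    mul_le_mul hkr hkr (by positivity) (by positivity)
  have h6 : 41 * L * (n : ℝ) ≤ 1 / S ^ 3 * (k * k) := by
    have e1 : 1 / S ^ 3 * ((n : ℝ) / (2 * L) * ((n : ℝ) / (2 * L))) ≤ 1 / S ^ 3 * (k * k) :=
      mul_le_mul_of_nonneg_left h5 (by positivity)
    refine le_trans ?_ e1
    have e2 : 1 / S ^ 3 * ((n : ℝ) / (2 * L) * ((n : ℝ) / (2 * L)))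
        = n * (S ^ 17 / (4 * L ^ 2)) := by
      rw [hnS]; field_simp; ring
    rw [e2]
    have e3 : 41 * (L : ℝ) ≤ S ^ 17 / (4 * L ^ 2) := by
      rw [le_div_iff₀ (by positivity)]
      have e4 : S ^ 2 ≤ S ^ 17 := pow_le_pow_right₀ (by nlinarith) (by norm_num)
      have e5 : (41 * (L : ℝ) ^ 2) ^ 2 ≤ S ^ 2 := pow_le_pow_left₀ (by positivity) hS 2
      have e6 : (L : ℝ) * L ^ 2 ≤ L ^ 4 := by
        have : (0 : ℝ) ≤ L ^ 3 := by positivity
        nlinarith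
      nlinarith
    have hn0 : (0 : ℝ) ≤ n := Nat.cast_nonneg _
    nlinarith
  have h7 : (1 : ℝ) ≤ n := by exact_mod_cast (by omega : 1 ≤ n)
  nlinarith

end

end

end TH171.Bx
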