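import Pool.Agent.TH171.Bx.Edge

/-!
# The sum of `-log (1 - u ^ r)` is at most `3 L`
-/

open Finset
open scoped Classical

set_option linter.unusedSectionVars false

namespace TH171.Bx

noncomputable section

variable {L : ℕ} [NeZero L]

/-- the cost of an initial segment of length `r` -/
def phi (L r : ℕ) : ℝ := - Real.log (1 - (uu L) ^ r)

lemma uu_pow_lt_one {r : ℕ} (hr : 0 < r) : (uu L) ^ r < 1 :=
  pow_lt_one₀ uu_nonneg uu_lt_one hr.ne'

lemma phi_nonneg (r : ℕ) : 0 ≤ phi L r := by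
  unfold phi
  rcases Nat.eq_zero_or_pos r with h | h
  · subst h; simp
  · have h1 : 0 ≤ (uu L) ^ r := pow_nonneg uu_nonneg r
    have h2 := uu_pow_lt_one (L := L) h
    have := Real.log_nonpos (x := 1 - (uu L) ^ r) (by linarith) (by linarith)
    linarith

lemma exp_neg_phi {r : ℕ} (hr : 0 < r) : Real.exp (- phi L r) = 1 - (uu L) ^ r := by
  unfold phi
  rw [neg_neg, Real.exp_log]
  have := uu_pow_lt_one (L := L) hr
  linarith

/-- `(1 - 1/L)^r ≤ 1/(1 + r/L)` -/
lemma uu_pow_le (r : ℕ) : (uu L) ^ r ≤ 1 / (1 + (r : ℝ) / L) := by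
  have hL := Lpos (L := L)
  have h1 : uu L * (1 + 1 / (L : ℝ)) ≤ 1 := by
    unfold uu
    have : (1 - 1 / (L : ℝ)) * (1 + 1 / (L : ℝ)) = 1 - (1 / (L : ℝ)) ^ 2 := by ring
    rw [this]
    have := sq_nonneg (1 / (L : ℝ))
    linarith
  have h2 : 1 + (r : ℝ) / L ≤ (1 + 1 / (L : ℝ)) ^ r := by
    have := one_add_mul_le_pow (a := 1 / (L : ℝ)) (by have := div_pos one_pos hL; linarith) r
    calc 1 + (r : ℝ) / L = 1 + r * (1 / (L : ℝ)) := by ring
      _ ≤ _ := this
  have h3 : 0 < 1 + (r : ℝ) / L := by positivity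
  rw [le_div_iff₀ h3]
  calc (uu L) ^ r * (1 + (r : ℝ) / L) ≤ (uu L) ^ r * (1 + 1 / (L : ℝ)) ^ r :=
        mul_le_mul_of_nonneg_left h2 (pow_nonneg uu_nonneg r)
    _ = (uu L * (1 + 1 / (L : ℝ))) ^ r := (mul_pow _ _ _).symm
    _ ≤ 1 := pow_le_one₀ (mul_nonneg uu_nonneg (by positivity)) h1

lemma phi_le_small {r : ℕ} (h1 : 1 ≤ r) (h2 : r ≤ L) :
    phi L r ≤ Real.log 2 + (Real.log L - Real.log r) := by
  have hL := Lpos (L := L)
  have hr : (0 : ℝ) < r := by exact_mod_cast h1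
  have hrL : (r : ℝ) ≤ L := by exact_mod_cast h2
  have h3 := uu_pow_le (L := L) r
  have h4 : (r : ℝ) / (2 * L) ≤ 1 - (uu L) ^ r := by
    have h5 : 1 / (1 + (r : ℝ) / L) = (L : ℝ) / (L + r) := by field_simp
    rw [h5] at h3
    have h6 : (r : ℝ) / (2 * L) ≤ (r : ℝ) / (L + r) :=
      div_le_div_of_nonneg_left hr.le (by positivity) (by linarith)
    have h7 : 1 - (L : ℝ) / (L + r) = (r : ℝ) / (L + r) := by field_simp; ring
    linarith
  have h8 := Real.log_le_log (by positivity) h4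
  rw [Real.log_div hr.ne' (by positivity), Real.log_mul (by norm_num) hL.ne'] at h8
  unfold phi
  linarith

lemma uu_pow_L_le : (uu L) ^ L ≤ 1 / 2 := by
  have h := uu_pow_le (L := L) L
  have hL := Lpos (L := L)
  rw [div_self hL.ne'] at h
  norm_num at h ⊢
  exact h

lemma phi_le_large {r : ℕ} (h2 : L ≤ r) : phi L r ≤ 2 * (uu L) ^ r := by
  have h0 : 0 ≤ (uu L) ^ r := pow_nonneg uu_nonneg r
  have h3 : (uu L) ^ r ≤ 1 / 2 :=
    (pow_le_pow_of_le_one uu_nonneg uu_lt_one.le h2).trans uu_pow_L_le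
  have h4 : (0 : ℝ) < 1 - (uu L) ^ r := by linarith
  have h5 := Real.one_sub_inv_le_log_of_pos h4
  have h6 : (1 - (uu L) ^ r)⁻¹ ≤ 1 + 2 * (uu L) ^ r := by
    rw [inv_le_comm₀ h4 (by positivity)]
    rw [inv_le_iff_one_le_mul₀ (by positivity)]
    nlinarith
  unfold phi
  linarith

lemma sum_log_eq (n : ℕ) : ∑ r ∈ Icc 1 n, Real.log (r : ℝ) = Real.log (n.factorial : ℝ) := by
  induction n with
  | zero => simp
  | succ k ih =>
    rw [Finset.sum_Icc_succ_top (by omega), ih, Nat.factorial_succ, Nat.cast_mul,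
      Real.log_mul (by positivity) (by exact_mod_cast (Nat.factorial_pos k).ne')]
    ring

lemma sum_small : ∑ r ∈ Icc 1 L, phi L r ≤ 2 * L := by
  have hL := Lpos (L := L)
  have h1 : ∑ r ∈ Icc 1 L, phi L r
      ≤ ∑ r ∈ Icc 1 L, (Real.log 2 + (Real.log L - Real.log r)) :=
    Finset.sum_le_sum (fun r hr => phi_le_small (Finset.mem_Icc.mp hr).1 (Finset.mem_Icc.mp hr).2)
  have h2 : ∑ r ∈ Icc 1 L, (Real.log 2 + (Real.log L - Real.log r))
      = L * Real.log 2 + (L * Real.log L - Real.log (L.factorial : ℝ)) := by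
    rw [Finset.sum_add_distrib, Finset.sum_sub_distrib, Finset.sum_const, Finset.sum_const,
      Nat.card_Icc, Nat.add_sub_cancel, nsmul_eq_mul, nsmul_eq_mul]
    rw [sum_log_eq]
  have h3 : L * Real.log L - Real.log (L.factorial : ℝ) ≤ L := by
    have h4 := Real.pow_div_factorial_le_exp (L : ℝ) hL.le L
    have hf : (0 : ℝ) < (L.factorial : ℝ) := by exact_mod_cast Nat.factorial_pos L
    have h5 := Real.log_le_log (by positivity) h4
    rw [Real.log_exp, Real.log_div (by positivity) hf.ne', Real.log_pow] at h5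
    exact h5
  have h4 : Real.log 2 ≤ 1 := by
    have := Real.log_two_lt_d9; linarith
  rw [h2] at h1
  nlinarith

lemma sum_phi_le (s : ℕ) : ∑ r ∈ Icc 1 s, phi L r ≤ 3 * L := by
  have hL := Lpos (L := L)
  have h1 : ∑ r ∈ Icc 1 s, phi L r ≤ ∑ r ∈ Icc 1 L, phi L r + ∑ r ∈ Ico L (L + s), phi L r := by
    calc ∑ r ∈ Icc 1 s, phi L r ≤ ∑ r ∈ Icc 1 L ∪ Ico L (L + s), phi L r := by
          refine Finset.sum_le_sum_of_subset_of_nonneg ?_ (fun r _ _ => phi_nonneg r)
          intro r hr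
          have hL0 : 0 < L := Nat.pos_of_ne_zero (NeZero.ne L)
          simp only [Finset.mem_union, Finset.mem_Icc, Finset.mem_Ico] at hr ⊢
          omega
      _ ≤ ∑ r ∈ Icc 1 L ∪ Ico L (L + s), phi L r + ∑ r ∈ Icc 1 L ∩ Ico L (L + s), phi L r := by
          have := Finset.sum_nonneg (s := Icc 1 L ∩ Ico L (L + s)) (f := fun r => phi L r)
            (fun r _ => phi_nonneg r)
          linarith
      _ = _ := Finset.sum_union_inter
  have h2 : ∑ r ∈ Ico L (L + s), phi L r ≤ L := by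
    calc ∑ r ∈ Ico L (L + s), phi L r ≤ ∑ r ∈ Ico L (L + s), 2 * (uu L) ^ r :=
          Finset.sum_le_sum (fun r hr => phi_le_large (Finset.mem_Ico.mp hr).1)
      _ = 2 * ((uu L) ^ L * ∑ i ∈ range s, (uu L) ^ i) := by
          rw [← Finset.mul_sum, Finset.sum_Ico_eq_sum_range, Nat.add_sub_cancel_left,
            Finset.mul_sum (range s) (fun i => (uu L) ^ i) ((uu L) ^ L)]
          congr 1
          exact Finset.sum_congr rfl (fun i _ => by rw [pow_add])
      _ ≤ 2 * ((1 / 2) * L) := by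
          have hg : ∑ i ∈ range s, (uu L) ^ i ≤ L := by
            have h3 := mul_neg_geom_sum (uu L) s
            have h4 : (1 - uu L) = 1 / (L : ℝ) := by unfold uu; ring
            rw [h4] at h3
            have h5 : 0 ≤ (uu L) ^ s := pow_nonneg uu_nonneg s
            have h6 : 1 / (L : ℝ) * ∑ i ∈ range s, (uu L) ^ i ≤ 1 := by rw [h3]; linarith
            have h7 : ∑ i ∈ range s, (uu L) ^ i
                = L * (1 / (L : ℝ) * ∑ i ∈ range s, (uu L) ^ i) := by
              field_simp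
            rw [h7]
            nlinarith
          have hg0 : 0 ≤ ∑ i ∈ range s, (uu L) ^ i :=
            Finset.sum_nonneg (fun i _ => pow_nonneg uu_nonneg i)
          have := mul_le_mul (uu_pow_L_le (L := L)) hg hg0 (by norm_num : (0 : ℝ) ≤ 1 / 2)
          linarith
      _ = L := by ring
  have h3 := sum_small (L := L)
  linarith

end

end TH171.Bx
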