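import Mathlib

/-!
# Counting probability on a finite function space

`pr V` is the proportion of the functions `X → Y` that satisfy `V`.
-/

open Finset
open scoped Classical

set_option linter.unusedSectionVars false

namespace TH171.Bx

noncomputable section

variable {X Y : Type} [Fintype X] [Fintype Y]

/-- indicator -/
def ind (V : (X → Y) → Prop) (ω : X → Y) : ℝ := if V ω then 1 else 0

lemma ind_nonneg (V : (X → Y) → Prop) (ω : X → Y) : 0 ≤ ind V ω := by
  unfold ind; split_ifs <;> norm_num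

lemma ind_le_one (V : (X → Y) → Prop) (ω : X → Y) : ind V ω ≤ 1 := by
  unfold ind; split_ifs <;> norm_num

lemma ind_mono {V W : (X → Y) → Prop} (h : ∀ ω, V ω → W ω) (ω : X → Y) : ind V ω ≤ ind W ω := by
  unfold ind
  split_ifs with h1 h2 h2
  · norm_num
  · exact absurd (h ω h1) h2
  · norm_num
  · norm_num

/-- proportion of the functions satisfying `V` -/
def pr (V : (X → Y) → Prop) : ℝ := (∑ ω : X → Y, ind V ω) / (Fintype.card (X → Y) : ℝ)

/-- `V` depends only on the coordinates in `E` -/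
def Dep (V : (X → Y) → Prop) (E : Set X) : Prop :=
  ∀ ω ω' : X → Y, (∀ x ∈ E, ω x = ω' x) → V ω → V ω'

lemma Dep.iff {V : (X → Y) → Prop} {E : Set X} (h : Dep V E) {ω ω' : X → Y}
    (hx : ∀ x ∈ E, ω x = ω' x) : V ω ↔ V ω' :=
  ⟨h ω ω' hx, h ω' ω (fun x hx' => (hx x hx').symm)⟩

lemma Dep.mono {V : (X → Y) → Prop} {E F : Set X} (h : Dep V E) (hEF : E ⊆ F) : Dep V F :=
  fun ω ω' hx => h ω ω' (fun x hx' => hx x (hEF hx'))

lemma Dep.not {V : (X → Y) → Prop} {E : Set X} (h : Dep V E) : Dep (fun ω => ¬ V ω) E :=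
  fun ω ω' hx hn hV => hn (h ω' ω (fun x hx' => (hx x hx').symm) hV)

lemma Dep.and {V W : (X → Y) → Prop} {E : Set X} (h : Dep V E) (h' : Dep W E) :
    Dep (fun ω => V ω ∧ W ω) E :=
  fun ω ω' hx hn => ⟨h ω ω' hx hn.1, h' ω ω' hx hn.2⟩

lemma Dep.forall {ι : Type*} {V : ι → (X → Y) → Prop} {E : Set X} (h : ∀ i, Dep (V i) E) :
    Dep (fun ω => ∀ i, V i ω) E :=
  fun ω ω' hx hn i => h i ω ω' hx (hn i)

variable [Nonempty Y]

lemma card_pos' : (0 : ℝ) < (Fintype.card (X → Y) : ℝ) := by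
  have : 0 < Fintype.card (X → Y) := Fintype.card_pos
  exact_mod_cast this

omit [Nonempty Y] in
lemma pr_nonneg (V : (X → Y) → Prop) : 0 ≤ pr V :=
  div_nonneg (Finset.sum_nonneg (fun ω _ => ind_nonneg V ω)) (Nat.cast_nonneg _)

lemma pr_mono {V W : (X → Y) → Prop} (h : ∀ ω, V ω → W ω) : pr V ≤ pr W := by
  unfold pr
  exact div_le_div_of_nonneg_right (Finset.sum_le_sum (fun ω _ => ind_mono h ω)) card_pos'.le

lemma pr_congr {V W : (X → Y) → Prop} (h : ∀ ω, V ω ↔ W ω) : pr V = pr W :=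
  le_antisymm (pr_mono fun ω => (h ω).1) (pr_mono fun ω => (h ω).2)

lemma pr_true : pr (fun _ : X → Y => True) = 1 := by
  unfold pr ind
  simp only [if_true]
  rw [Finset.sum_const, nsmul_eq_mul, mul_one, Finset.card_univ]
  exact div_self card_pos'.ne'

lemma pr_not (V : (X → Y) → Prop) : pr (fun ω => ¬ V ω) = 1 - pr V := by
  have h : pr (fun ω => ¬ V ω) + pr V = 1 := by
    rw [← pr_true (X := X) (Y := Y)]
    unfold pr
    rw [← add_div, ← Finset.sum_add_distrib]
    congr 1
    refine Finset.sum_congr rfl (fun ω _ => ?_)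
    unfold ind
    by_cases hV : V ω <;> simp [hV]
  linarith

lemma pr_le_one (V : (X → Y) → Prop) : pr V ≤ 1 := by
  rw [← pr_true (X := X) (Y := Y)]
  exact pr_mono (fun _ _ => trivial)

lemma exists_of_pr_lt_one {V : (X → Y) → Prop} (h : pr V < 1) : ∃ ω, ¬ V ω := by
  by_contra hn
  push Not at hn
  have : pr V = 1 := by
    rw [← pr_true (X := X) (Y := Y)]
    exact pr_congr (fun ω => ⟨fun _ => trivial, fun _ => hn ω⟩)
  linarith

lemma pr_or (V W : (X → Y) → Prop) : pr (fun ω => V ω ∨ W ω) ≤ pr V + pr W := by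
  unfold pr
  rw [← add_div, ← Finset.sum_add_distrib]
  refine div_le_div_of_nonneg_right (Finset.sum_le_sum (fun ω _ => ?_)) card_pos'.le
  unfold ind
  by_cases hV : V ω <;> by_cases hW : W ω <;> simp [hV, hW]

lemma pr_exists {ι : Type*} [Fintype ι] (V : ι → (X → Y) → Prop) (b : ℝ)
    (hb : ∀ i, pr (V i) ≤ b) : pr (fun ω => ∃ i, V i ω) ≤ Fintype.card ι * b := by
  have h1 : pr (fun ω => ∃ i, V i ω) ≤ ∑ i, pr (V i) := by
    unfold pr
    rw [← Finset.sum_div, Finset.sum_comm]
    refine div_le_div_of_nonneg_right (Finset.sum_le_sum (fun ω _ => ?_)) card_pos'.le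
    unfold ind
    split_ifs with h
    · obtain ⟨i, hi⟩ := h
      calc (1 : ℝ) = if V i ω then 1 else 0 := by simp [hi]
        _ ≤ ∑ j, if V j ω then (1 : ℝ) else 0 :=
            Finset.single_le_sum (f := fun j => if V j ω then (1 : ℝ) else 0)
              (fun j _ => by split_ifs <;> norm_num) (Finset.mem_univ i)
    · exact Finset.sum_nonneg (fun j _ => by split_ifs <;> norm_num)
  refine h1.trans ?_
  calc ∑ i, pr (V i) ≤ ∑ _i : ι, b := Finset.sum_le_sum (fun i _ => hb i)
    _ = Fintype.card ι * b := by rw [Finset.sum_const, nsmul_eq_mul, Finset.card_univ]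

/-- exchange the coordinates outside `E` -/
def swapEquiv (E : Set X) : ((X → Y) × (X → Y)) ≃ ((X → Y) × (X → Y)) where
  toFun p := (E.piecewise p.1 p.2, E.piecewise p.2 p.1)
  invFun p := (E.piecewise p.1 p.2, E.piecewise p.2 p.1)
  left_inv p := by
    ext x
    · by_cases hx : x ∈ E <;> simp [hx]
    · by_cases hx : x ∈ E <;> simp [hx]
  right_inv p := by
    ext x
    · by_cases hx : x ∈ E <;> simp [hx]
    · by_cases hx : x ∈ E <;> simp [hx]

lemma pr_and_of_dep {V W : (X → Y) → Prop} {E F : Set X} (hV : Dep V E) (hW : Dep W F)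
    (hEF : Disjoint E F) : pr (fun ω => V ω ∧ W ω) = pr V * pr W := by
  have key : (∑ ω : X → Y, ind (fun ω => V ω ∧ W ω) ω) * (Fintype.card (X → Y) : ℝ)
      = (∑ ω : X → Y, ind V ω) * (∑ ω : X → Y, ind W ω) := by
    have h1 : (Fintype.card (X → Y) : ℝ) = ∑ _ω : X → Y, (1 : ℝ) := by
      rw [Finset.sum_const, nsmul_eq_mul, mul_one, Finset.card_univ]
    rw [h1, Finset.sum_mul_sum, Finset.sum_mul_sum, ← Finset.sum_product', ← Finset.sum_product']
    refine Finset.sum_bij' (fun p _ => swapEquiv E p) (fun p _ => (swapEquiv E).symm p)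
      (fun p _ => by simp) (fun p _ => by simp) (fun p _ => by simp) (fun p _ => by simp) ?_
    intro p _
    have e1 : V (swapEquiv E p).1 ↔ V p.1 := by
      refine hV.iff (fun x hx => ?_)
      simp [swapEquiv, hx]
    have e2 : W (swapEquiv E p).2 ↔ W p.1 := by
      refine hW.iff (fun x hx => ?_)
      have : x ∉ E := fun h => (Set.disjoint_left.mp hEF h) hx
      simp [swapEquiv, this]
    unfold ind
    simp only [e1, e2]
    by_cases h1 : V p.1 <;> by_cases h2 : W p.1 <;> simp [h1, h2]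
  unfold pr
  have hc := card_pos' (X := X) (Y := Y)
  rw [div_mul_div_comm, ← key, mul_div_mul_right _ _ hc.ne']

lemma pr_forall_not {ι : Type*} (I : Finset ι) (U : ι → (X → Y) → Prop) (E : ι → Set X)
    (hdep : ∀ i ∈ I, Dep (U i) (E i))
    (hdis : ∀ i ∈ I, ∀ j ∈ I, i ≠ j → Disjoint (E i) (E j)) {q : ℝ}
    (hq : ∀ i ∈ I, q ≤ pr (U i)) :
    pr (fun ω => ∀ i ∈ I, ¬ U i ω) ≤ (1 - q) ^ I.card := by
  induction I using Finset.induction_on with
  | empty => simpa using pr_le_one (fun ω : X → Y => ∀ i ∈ (∅ : Finset ι), ¬ U i ω)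
  | insert a s ha ih =>
    have ih' := ih (fun i hi => hdep i (Finset.mem_insert_of_mem hi))
      (fun i hi j hj => hdis i (Finset.mem_insert_of_mem hi) j (Finset.mem_insert_of_mem hj))
      (fun i hi => hq i (Finset.mem_insert_of_mem hi))
    have e : pr (fun ω => ∀ i ∈ insert a s, ¬ U i ω)
        = pr (fun ω => (¬ U a ω) ∧ ∀ i ∈ s, ¬ U i ω) :=
      pr_congr (fun ω => by simp)
    have hd1 : Dep (fun ω => ¬ U a ω) (E a) := (hdep a (Finset.mem_insert_self a s)).not
    have hd2 : Dep (fun ω => ∀ i ∈ s, ¬ U i ω) (⋃ i ∈ s, E i) := by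
      intro ω ω' hx hn i hi
      refine (hdep i (Finset.mem_insert_of_mem hi)).not ω ω' (fun x hx' => hx x ?_) (hn i hi)
      exact Set.mem_biUnion hi hx'
    have hdisj : Disjoint (E a) (⋃ i ∈ s, E i) := by
      rw [Set.disjoint_iUnion₂_right]
      intro i hi
      exact hdis a (Finset.mem_insert_self a s) i (Finset.mem_insert_of_mem hi)
        (fun h => ha (h ▸ hi))
    rw [e, pr_and_of_dep hd1 hd2 hdisj, Finset.card_insert_of_notMem ha, pow_succ', pr_not]
    have h1 : 1 - pr (U a) ≤ 1 - q := by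
      have := hq a (Finset.mem_insert_self a s); linarith
    have h0 : 0 ≤ 1 - pr (U a) := by have := pr_le_one (U a); linarith
    exact mul_le_mul h1 ih' (pr_nonneg _) (h0.trans h1)

/-- monotone events are positively correlated -/
lemma pr_and_mono {Y : Type} [Fintype Y] [Nonempty Y] [LinearOrder Y]
    {V W : (X → Y) → Prop} (hV : ∀ ω ω' : X → Y, ω ≤ ω' → V ω → V ω')
    (hW : ∀ ω ω' : X → Y, ω ≤ ω' → W ω → W ω') :
    pr V * pr W ≤ pr (fun ω => V ω ∧ W ω) := by
  have h := fkg (μ := fun _ : X → Y => (1 : ℝ)) (f := ind V) (g := ind W)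
    (fun _ => by norm_num) (fun ω => ind_nonneg V ω) (fun ω => ind_nonneg W ω)
    (by
      intro ω ω' hle
      unfold ind
      split_ifs with h1 h2 h2
      · exact le_rfl
      · exact absurd (hV ω ω' hle h1) h2
      · norm_num
      · norm_num)
    (by
      intro ω ω' hle
      unfold ind
      split_ifs with h1 h2 h2
      · exact le_rfl
      · exact absurd (hW ω ω' hle h1) h2
      · norm_num
      · norm_num)
    (fun _ _ => by norm_num)
  simp only [one_mul, Finset.sum_const, nsmul_eq_mul, mul_one, Finset.card_univ] at h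
  have e : ∀ ω : X → Y, ind V ω * ind W ω = ind (fun ω => V ω ∧ W ω) ω := by
    intro ω
    unfold ind
    by_cases h1 : V ω <;> by_cases h2 : W ω <;> simp [h1, h2]
  simp only [e] at h
  unfold pr
  have hc := card_pos' (X := X) (Y := Y)
  rw [div_mul_div_comm, div_le_div_iff₀ (mul_pos hc hc) hc]
  calc _ ≤ ((Fintype.card (X → Y) : ℝ) * ∑ ω, ind (fun ω => V ω ∧ W ω) ω)
        * (Fintype.card (X → Y) : ℝ) := mul_le_mul_of_nonneg_right h hc.le
    _ = _ := by ring

lemma pr_forall_mono {Y : Type} [Fintype Y] [Nonempty Y] [LinearOrder Y]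
    {ι : Type*} (I : Finset ι) (H : ι → (X → Y) → Prop)
    (hH : ∀ i ∈ I, ∀ ω ω' : X → Y, ω ≤ ω' → H i ω → H i ω') :
    ∏ i ∈ I, pr (H i) ≤ pr (fun ω => ∀ i ∈ I, H i ω) := by
  induction I using Finset.induction_on with
  | empty =>
    simp only [Finset.prod_empty]
    have : pr (fun ω : X → Y => ∀ i ∈ (∅ : Finset ι), H i ω) = 1 := by
      rw [← pr_true (X := X) (Y := Y)]
      exact pr_congr (fun ω => by simp)
    rw [this]
  | insert a s ha ih =>
    have ih' := ih (fun i hi => hH i (Finset.mem_insert_of_mem hi))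
    have e : pr (fun ω => ∀ i ∈ insert a s, H i ω)
        = pr (fun ω => (H a ω) ∧ ∀ i ∈ s, H i ω) :=
      pr_congr (fun ω => by simp)
    rw [e, Finset.prod_insert ha]
    refine (mul_le_mul_of_nonneg_left ih' (pr_nonneg _)).trans ?_
    refine pr_and_mono (hH a (Finset.mem_insert_self a s)) ?_
    intro ω ω' hle hn i hi
    exact hH i (Finset.mem_insert_of_mem hi) ω ω' hle (hn i hi)

end

end TH171.Bx
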