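import Pool.Agent.TH171.Bx.Phi

/-!
# Selecting many elements with disjoint neighbourhoods in the lists
-/

open Finset
open scoped Classical

set_option linter.unusedSectionVars false

namespace TH171.Bx

noncomputable section

variable {n s m : ℕ} (T : Fin m → Fin s → Fin n)

/-- the positions of `x` -/
def pos (x : Fin n) : Finset (Fin m × Fin s) := univ.filter (fun p => T p.1 p.2 = x)

/-- the unpopular elements before position `p` -/
def pre (p : Fin m × Fin s) : Finset (Fin n) :=
  (univ.filter (fun i : Fin s => i < p.2 ∧ (pos T (T p.1 i)).card ≤ s)).image (T p.1)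

/-- the neighbourhood of `x` in the lists -/
def ZZ (x : Fin n) : Finset (Fin n) := insert x ((pos T x).biUnion (pre T))

lemma mem_pos {x : Fin n} {p : Fin m × Fin s} : p ∈ pos T x ↔ T p.1 p.2 = x := by
  simp [pos]

lemma mem_pre {y : Fin n} {p : Fin m × Fin s} :
    y ∈ pre T p ↔ ∃ i : Fin s, i < p.2 ∧ (pos T (T p.1 i)).card ≤ s ∧ T p.1 i = y := by
  unfold pre
  simp only [Finset.mem_image, Finset.mem_filter, Finset.mem_univ, true_and]
  constructor
  · rintro ⟨i, ⟨h1, h2⟩, h3⟩; exact ⟨i, h1, h2, h3⟩
  · rintro ⟨i, h1, h2, h3⟩; exact ⟨i, ⟨h1, h2⟩, h3⟩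

lemma card_pre_le (p : Fin m × Fin s) : (pre T p).card ≤ s := by
  refine (Finset.card_image_le).trans ((Finset.card_filter_le _ _).trans ?_)
  simp

lemma sum_card_pos : ∑ x : Fin n, (pos T x).card = m * s := by
  have h := Finset.card_eq_sum_card_fiberwise (s := (univ : Finset (Fin m × Fin s)))
    (t := (univ : Finset (Fin n))) (f := fun p => T p.1 p.2) (fun x _ => by simp)
  rw [Finset.card_univ, Fintype.card_prod, Fintype.card_fin, Fintype.card_fin] at h
  rw [h]
  rfl

lemma card_bad (hs : 0 < s) : (univ.filter (fun x : Fin n => s < (pos T x).card)).card ≤ m := by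
  have h1 : (univ.filter (fun x : Fin n => s < (pos T x).card)).card * s ≤ m * s := by
    rw [← sum_card_pos T]
    calc (univ.filter (fun x : Fin n => s < (pos T x).card)).card * s
        = ∑ _x ∈ univ.filter (fun x : Fin n => s < (pos T x).card), s := by
          rw [Finset.sum_const, smul_eq_mul]
      _ ≤ ∑ x ∈ univ.filter (fun x : Fin n => s < (pos T x).card), (pos T x).card :=
          Finset.sum_le_sum (fun x hx => (Finset.mem_filter.mp hx).2.le)
      _ ≤ ∑ x : Fin n, (pos T x).card :=
          Finset.sum_le_sum_of_subset (Finset.filter_subset _ _)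
  exact Nat.le_of_mul_le_mul_right h1 hs

variable (hT : ∀ j, Function.Injective (T j))
include hT

lemma card_pre_lt {j : Fin m} {i i' : Fin s} (hi : i < i') (hg : (pos T (T j i)).card ≤ s) :
    (pre T (j, i)).card < (pre T (j, i')).card := by
  refine Finset.card_lt_card ?_
  rw [Finset.ssubset_iff_of_subset]
  · refine ⟨T j i, ?_, ?_⟩
    · rw [mem_pre]; exact ⟨i, hi, hg, rfl⟩
    · rw [mem_pre]
      rintro ⟨k, hk, _, hk3⟩
      have := hT j hk3
      subst this
      exact lt_irrefl _ hk
  · intro y hy
    rw [mem_pre] at hy ⊢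
    obtain ⟨k, hk, hk2, hk3⟩ := hy
    exact ⟨k, hk.trans hi, hk2, hk3⟩

/-- elements that are first in some reduced list -/
def firsts (T : Fin m → Fin s → Fin n) : Finset (Fin n) :=
  univ.filter (fun x => (pos T x).card ≤ s ∧ ∃ p ∈ pos T x, (pre T p).card = 0)

lemma card_firsts : (firsts T).card ≤ m := by
  have h1 : firsts T ⊆ (univ : Finset (Fin m)).biUnion
      (fun j => univ.filter (fun x => (pos T x).card ≤ s ∧ ∃ i, T j i = x ∧
        (pre T (j, i)).card = 0)) := by
    intro x hx
    simp only [firsts, Finset.mem_filter, Finset.mem_univ, true_and] at hx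
    obtain ⟨h1, ⟨j, i⟩, h2, h3⟩ := hx
    simp only [Finset.mem_biUnion, Finset.mem_univ, true_and, Finset.mem_filter]
    exact ⟨j, h1, i, (mem_pos T).mp h2, h3⟩
  refine (Finset.card_le_card h1).trans ?_
  refine (Finset.card_biUnion_le).trans ?_
  calc _ ≤ ∑ _j : Fin m, 1 := by
        refine Finset.sum_le_sum (fun j _ => ?_)
        rw [Finset.card_le_one]
        intro x hx y hy
        simp only [Finset.mem_filter, Finset.mem_univ, true_and] at hx hy
        obtain ⟨hx1, i, hx2, hx3⟩ := hx
        obtain ⟨hy1, i', hy2, hy3⟩ := hy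
        rcases lt_trichotomy i i' with h | h | h
        · have := card_pre_lt T hT h (by rw [hx2]; exact hx1)
          omega
        · subst h; rw [← hx2, ← hy2]
        · have := card_pre_lt T hT h (by rw [hy2]; exact hy1)
          omega
    _ = m := by simp

variable {L : ℕ} [NeZero L]

/-- good elements -/
def A1 (T : Fin m → Fin s → Fin n) : Finset (Fin n) :=
  univ.filter (fun x => (pos T x).card ≤ s ∧ ∀ p ∈ pos T x, 0 < (pre T p).card)

lemma sum_psi : ∑ x ∈ A1 T, ∑ p ∈ pos T x, phi L (pre T p).card ≤ m * (3 * L) := by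
  have h1 : ∑ x ∈ A1 T, ∑ p ∈ pos T x, phi L (pre T p).card
      = ∑ p ∈ univ.filter (fun p : Fin m × Fin s => T p.1 p.2 ∈ A1 T), phi L (pre T p).card := by
    rw [← Finset.sum_fiberwise_of_maps_to (s := univ.filter
      (fun p : Fin m × Fin s => T p.1 p.2 ∈ A1 T)) (t := A1 T) (g := fun p => T p.1 p.2)
      (fun p hp => (Finset.mem_filter.mp hp).2)]
    refine Finset.sum_congr rfl (fun x hx => ?_)
    refine Finset.sum_congr ?_ (fun _ _ => rfl)
    ext p
    simp only [pos, Finset.mem_filter, Finset.mem_univ, true_and]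
    constructor
    · intro h; exact ⟨h ▸ hx, h⟩
    · intro h; exact h.2
  have h2 : ∑ p ∈ univ.filter (fun p : Fin m × Fin s => T p.1 p.2 ∈ A1 T), phi L (pre T p).card
      = ∑ j : Fin m, ∑ i ∈ univ.filter (fun i : Fin s => T j i ∈ A1 T),
          phi L (pre T (j, i)).card := by
    rw [Finset.sum_filter, Fintype.sum_prod_type]
    refine Finset.sum_congr rfl (fun j _ => ?_)
    rw [Finset.sum_filter]
  rw [h1, h2]
  calc _ ≤ ∑ _j : Fin m, (3 * (L : ℝ)) := by
        refine Finset.sum_le_sum (fun j _ => ?_)
        refine le_trans ?_ (sum_phi_le (L := L) s)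
        have hinj : Set.InjOn (fun i : Fin s => (pre T (j, i)).card)
            (univ.filter (fun i : Fin s => T j i ∈ A1 T) : Finset (Fin s)) := by
          intro i hi i' hi' hEq
          simp only [Finset.coe_filter, Finset.mem_univ, true_and, Set.mem_ofPred_eq, A1,
            Finset.mem_filter] at hi hi'
          simp only at hEq
          rcases lt_trichotomy i i' with h | h | h
          · have := card_pre_lt T hT h hi.1
            omega
          · exact h
          · have := card_pre_lt T hT h hi'.1
            omega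
        rw [← Finset.sum_image (f := fun r => phi L r) hinj]
        refine Finset.sum_le_sum_of_subset_of_nonneg ?_ (fun r _ _ => phi_nonneg r)
        intro r hr
        simp only [Finset.mem_image, Finset.mem_filter, Finset.mem_univ, true_and, A1] at hr
        obtain ⟨i, ⟨_, hi2⟩, rfl⟩ := hr
        rw [Finset.mem_Icc]
        exact ⟨hi2 (j, i) ((mem_pos T).mpr rfl), card_pre_le T _⟩
    _ = m * (3 * L) := by simp

/-- the final pool of good elements -/
def A2 (L : ℕ) (T : Fin m → Fin s → Fin n) : Finset (Fin n) :=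
  (A1 T).filter (fun x => ∑ p ∈ pos T x, phi L (pre T p).card ≤ 3 * L)

lemma card_A2 (hs : 0 < s) : n ≤ (A2 L T).card + 3 * m := by
  have hL := Lpos (L := L)
  have h1 : ((A1 T).filter (fun x => ¬ ∑ p ∈ pos T x, phi L (pre T p).card ≤ 3 * L)).card
      ≤ m := by
    have h2 : (((A1 T).filter
        (fun x => ¬ ∑ p ∈ pos T x, phi L (pre T p).card ≤ 3 * L)).card : ℝ) * (3 * L)
        ≤ m * (3 * L) := by
      refine le_trans ?_ (sum_psi T hT)
      calc _ = ∑ _x ∈ (A1 T).filter
            (fun x => ¬ ∑ p ∈ pos T x, phi L (pre T p).card ≤ 3 * L), (3 * (L : ℝ)) := by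
            rw [Finset.sum_const, nsmul_eq_mul]
        _ ≤ ∑ x ∈ (A1 T).filter
            (fun x => ¬ ∑ p ∈ pos T x, phi L (pre T p).card ≤ 3 * L),
              ∑ p ∈ pos T x, phi L (pre T p).card :=
            Finset.sum_le_sum (fun x hx => (not_le.mp (Finset.mem_filter.mp hx).2).le)
        _ ≤ _ := Finset.sum_le_sum_of_subset_of_nonneg (Finset.filter_subset _ _)
            (fun x _ _ => Finset.sum_nonneg (fun p _ => phi_nonneg _))
    have h3 := le_of_mul_le_mul_right h2 (by positivity)
    exact_mod_cast h3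
  have h4 : (univ : Finset (Fin n)) ⊆ ((A2 L T) ∪ ((A1 T).filter
      (fun x => ¬ ∑ p ∈ pos T x, phi L (pre T p).card ≤ 3 * L))) ∪
      ((univ.filter (fun x : Fin n => s < (pos T x).card)) ∪ firsts T) := by
    intro x _
    simp only [Finset.mem_union, A2, firsts, A1, Finset.mem_filter, Finset.mem_univ, true_and]
    by_cases hb : (pos T x).card ≤ s
    · by_cases hp : ∀ p ∈ pos T x, 0 < (pre T p).card
      · by_cases hh : ∑ p ∈ pos T x, phi L (pre T p).card ≤ 3 * L
        · exact Or.inl (Or.inl ⟨⟨hb, hp⟩, hh⟩)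
        · exact Or.inl (Or.inr ⟨⟨hb, hp⟩, hh⟩)
      · push Not at hp
        obtain ⟨p, hp1, hp2⟩ := hp
        exact Or.inr (Or.inr ⟨hb, p, hp1, by omega⟩)
    · exact Or.inr (Or.inl (not_le.mp hb))
  have h5 := Finset.card_le_card h4
  have h6 := Finset.card_union_le ((A2 L T) ∪ ((A1 T).filter
      (fun x => ¬ ∑ p ∈ pos T x, phi L (pre T p).card ≤ 3 * L)))
      ((univ.filter (fun x : Fin n => s < (pos T x).card)) ∪ firsts T)
  have h7 := Finset.card_union_le (A2 L T) ((A1 T).filter
      (fun x => ¬ ∑ p ∈ pos T x, phi L (pre T p).card ≤ 3 * L))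
  have h8 := Finset.card_union_le
      (univ.filter (fun x : Fin n => s < (pos T x).card)) (firsts T)
  have h9 := card_bad T hs
  have h10 := card_firsts T hT
  rw [Finset.card_univ, Fintype.card_fin] at h5
  omega

omit hT in
lemma card_ZZ {x : Fin n} (hx : (pos T x).card ≤ s) : (ZZ T x).card ≤ 1 + s * s := by
  unfold ZZ
  refine (Finset.card_insert_le _ _).trans ?_
  have h1 : ((pos T x).biUnion (pre T)).card ≤ (pos T x).card * s := by
    refine (Finset.card_biUnion_le).trans ?_
    calc _ ≤ ∑ _p ∈ pos T x, s := Finset.sum_le_sum (fun p _ => card_pre_le T p)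
      _ = _ := by rw [Finset.sum_const, smul_eq_mul]
  have h2 : (pos T x).card * s ≤ s * s := Nat.mul_le_mul_right s hx
  omega

omit hT in
lemma card_mult (y : Fin n) : (univ.filter (fun x => y ∈ ZZ T x)).card ≤ 1 + s * s := by
  by_cases hy : (pos T y).card ≤ s
  · have h1 : (univ.filter (fun x => y ∈ ZZ T x)) ⊆
        insert y (((pos T y) ×ˢ (univ : Finset (Fin s))).image (fun q => T q.1.1 q.2)) := by
      intro x hx
      simp only [ZZ, Finset.mem_filter, Finset.mem_univ, true_and, Finset.mem_insert,
        Finset.mem_biUnion] at hx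
      rw [Finset.mem_insert]
      rcases hx with h | ⟨p, hp, hyp⟩
      · exact Or.inl h.symm
      · right
        rw [mem_pre] at hyp
        obtain ⟨i, hi, _, hi3⟩ := hyp
        rw [Finset.mem_image]
        refine ⟨((p.1, i), p.2), ?_, ?_⟩
        · rw [Finset.mem_product]
          exact ⟨(mem_pos T).mpr hi3, Finset.mem_univ _⟩
        · exact (mem_pos T).mp hp
    refine (Finset.card_le_card h1).trans ((Finset.card_insert_le _ _).trans ?_)
    have h2 := Finset.card_image_le (s := (pos T y) ×ˢ (univ : Finset (Fin s)))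
      (f := fun q => T q.1.1 q.2)
    rw [Finset.card_product, Finset.card_univ, Fintype.card_fin] at h2
    have h3 : (pos T y).card * s ≤ s * s := Nat.mul_le_mul_right s hy
    omega
  · have h1 : (univ.filter (fun x => y ∈ ZZ T x)) ⊆ {y} := by
      intro x hx
      simp only [ZZ, Finset.mem_filter, Finset.mem_univ, true_and, Finset.mem_insert,
        Finset.mem_biUnion] at hx
      rw [Finset.mem_singleton]
      rcases hx with h | ⟨p, hp, hyp⟩
      · exact h.symm
      · rw [mem_pre] at hyp
        obtain ⟨i, hi, hi2, hi3⟩ := hyp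
        rw [hi3] at hi2
        exact absurd hi2 hy
    refine (Finset.card_le_card h1).trans ?_
    rw [Finset.card_singleton]
    omega

theorem select (L : ℕ) [NeZero L] (hs : 0 < s) : ∃ A : Finset (Fin n),
    n ≤ A.card * ((1 + s * s) * (1 + s * s)) + 3 * m ∧
    (∀ x ∈ A, ∀ y ∈ A, x ≠ y → Disjoint (ZZ T x) (ZZ T y)) ∧
    (∀ x ∈ A, ∑ p ∈ pos T x, phi L (pre T p).card ≤ 3 * L) ∧
    (∀ x ∈ A, ∀ p ∈ pos T x, 0 < (pre T p).card) := by
  have hne : ((A2 L T).powerset.filter (fun A => ∀ x ∈ A, ∀ y ∈ A, x ≠ y →
      Disjoint (ZZ T x) (ZZ T y))).Nonempty :=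
    ⟨∅, by simp⟩
  obtain ⟨A, hA, hmax⟩ := Finset.exists_max_image _ (fun A : Finset (Fin n) => A.card) hne
  rw [Finset.mem_filter, Finset.mem_powerset] at hA
  obtain ⟨hsub, hdis⟩ := hA
  refine ⟨A, ?_, hdis, ?_, ?_⟩
  · have hcov : A2 L T ⊆ A.biUnion (fun a => (ZZ T a).biUnion
        (fun y => univ.filter (fun x => y ∈ ZZ T x))) := by
      intro x hx
      by_contra hn
      have hxd : ∀ a ∈ A, Disjoint (ZZ T x) (ZZ T a) := by
        intro a ha
        rw [Finset.disjoint_left]
        intro y hy1 hy2
        apply hn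
        rw [Finset.mem_biUnion]
        refine ⟨a, ha, ?_⟩
        rw [Finset.mem_biUnion]
        exact ⟨y, hy2, by simpa using hy1⟩
      have hxA : x ∉ A := by
        intro h
        have := hxd x h
        rw [disjoint_self] at this
        have h2 : x ∈ ZZ T x := Finset.mem_insert_self _ _
        rw [this] at h2
        simp at h2
      have h1 : insert x A ∈ ((A2 L T).powerset.filter (fun A => ∀ x ∈ A, ∀ y ∈ A, x ≠ y →
          Disjoint (ZZ T x) (ZZ T y))) := by
        rw [Finset.mem_filter, Finset.mem_powerset]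
        refine ⟨Finset.insert_subset hx hsub, ?_⟩
        intro a ha b hb hab
        rw [Finset.mem_insert] at ha hb
        rcases ha with rfl | ha <;> rcases hb with rfl | hb
        · exact absurd rfl hab
        · exact hxd b hb
        · exact (hxd a ha).symm
        · exact hdis a ha b hb hab
      have h2 := hmax _ h1
      rw [Finset.card_insert_of_notMem hxA] at h2
      omega
    have h1 := Finset.card_le_card hcov
    have h2 : (A.biUnion (fun a => (ZZ T a).biUnion
        (fun y => univ.filter (fun x => y ∈ ZZ T x)))).card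
        ≤ A.card * ((1 + s * s) * (1 + s * s)) := by
      refine (Finset.card_biUnion_le).trans ?_
      calc _ ≤ ∑ _a ∈ A, ((1 + s * s) * (1 + s * s)) := by
            refine Finset.sum_le_sum (fun a ha => ?_)
            refine (Finset.card_biUnion_le).trans ?_
            have hag : (pos T a).card ≤ s := by
              have := hsub ha
              simp only [A2, A1, Finset.mem_filter, Finset.mem_univ, true_and] at this
              exact this.1.1
            calc _ ≤ ∑ _y ∈ ZZ T a, (1 + s * s) :=
                  Finset.sum_le_sum (fun y _ => card_mult T y)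
              _ = (ZZ T a).card * (1 + s * s) := by rw [Finset.sum_const, smul_eq_mul]
              _ ≤ _ := Nat.mul_le_mul_right _ (card_ZZ T hag)
        _ = _ := by rw [Finset.sum_const, smul_eq_mul]
    have h3 := card_A2 (L := L) T hT hs
    omega
  · intro x hx
    have := hsub hx
    simp only [A2, Finset.mem_filter] at this
    exact this.2
  · intro x hx
    have := hsub hx
    simp only [A2, A1, Finset.mem_filter, Finset.mem_univ, true_and] at this
    exact this.1.2

end

end TH171.Bx
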